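import Pool.Agent.H95.FL.Def

/-!
[H95 FL BL]  The blocks.

`yy x a j = x^(a 3^-j)`, decreasing in `j` (`x ≥ 3`, `a > 0`), `≥ 1`, `(yy x a (j+1))^3 = yy x a j`.
`Rj x a P j = {p ∈ P : yy (j+1) < p ≤ yy j}`.
* `Rj_disj`: for `i < j`: `p ∈ Rj j` gives `p ≤ yy j ≤ yy (i+1)`.
* `Rj_union`: `w0 < p ≤ x^a = yy 0` and `yy J ≤ w0`: take the largest `j < J` with `p ≤ yy j` (or induction on `J`).
* `card_Rj`: `Rj x a P j ⊆ {2, .., ⌊yy j⌋}` (primes), so `#(Rj j) ≤ yy j - 1` (if `yy j < 2` it is empty and `yy j ≥ 1`).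
* `sum_exp`: `∑_{j<J} 2(B+j+1) 3^-j ≤ 2(B+1) * 3/2 + 2 * 3/4 = 3B + 4.5` (induction on `J` with the exact remainder, e.g.
  `∑_{j<J} 2(B+j+1) 3^-j = 3B + 4.5 - (3B + 3J + 4.5) 3^-J`).
* `prod_yy`: `∏_{j<J} (yy x a j)^(b j) = x^(a ∑ b_j 3^-j) ≤ x^(a (3B + 4.5))`.
* `sum_b`: `∑_{j<J} 2(B+j+1) = 2 J (B+1) + J(J-1) ≤ 2 J (B+J)` for `J ≥ 1` (and `0 = 0` for `J = 0`).
-/

namespace Pool.Agent.H95.FL

open Finset

noncomputable def yy (x a : ℝ) (j : ℕ) : ℝ := x ^ (a * (1 / 3 : ℝ) ^ j)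

open Classical in
noncomputable def Rj (x a : ℝ) (P : Finset ℕ) (j : ℕ) : Finset ℕ :=
  P.filter (fun p => yy x a (j + 1) < (p : ℝ) ∧ (p : ℝ) ≤ yy x a j)

/-- truncation parameters -/
def bj (B j : ℕ) : ℕ := 2 * (B + j + 1)

theorem bj_even (B j : ℕ) : Even (bj B j) := even_two_mul _

theorem yy_one_le (x a : ℝ) (hx : 3 ≤ x) (ha : 0 < a) (j : ℕ) : 1 ≤ yy x a j :=
  Real.one_le_rpow (by linarith) (by positivity)

private theorem yy_anti (x a : ℝ) (hx : 3 ≤ x) (ha : 0 < a) {i j : ℕ} (hij : i ≤ j) :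
    yy x a j ≤ yy x a i := by
  refine Real.rpow_le_rpow_of_exponent_le (by linarith) ?_
  refine mul_le_mul_of_nonneg_left ?_ ha.le
  exact pow_le_pow_of_le_one (by norm_num) (by norm_num) hij

private theorem yy_zero (x a : ℝ) : yy x a 0 = x ^ a := by
  rw [yy, pow_zero, mul_one]

theorem yy_le (x a : ℝ) (hx : 3 ≤ x) (ha : 0 < a) (j : ℕ) : yy x a j ≤ x ^ a := by
  rw [← yy_zero]
  exact yy_anti x a hx ha (Nat.zero_le j)

theorem yy_cube (x a : ℝ) (hx : 3 ≤ x) (j : ℕ) : yy x a j = yy x a (j + 1) ^ 3 := by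
  rw [yy, yy, ← Real.rpow_natCast (x ^ (a * (1 / 3 : ℝ) ^ (j + 1))) 3,
    ← Real.rpow_mul (by linarith)]
  congr 1
  rw [pow_succ]
  push_cast
  ring

theorem Rj_disj (x a : ℝ) (hx : 3 ≤ x) (ha : 0 < a) (P : Finset ℕ) (J : ℕ) : Dj J (Rj x a P) := by
  have key : ∀ i j, i < j → Disjoint (Rj x a P i) (Rj x a P j) := by
    intro i j hij
    rw [Finset.disjoint_left]
    intro p hp hp'
    rw [Rj, Finset.mem_filter] at hp hp'
    have h1 := yy_anti x a hx ha (Nat.succ_le_of_lt hij)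
    have h2 := hp.2.1
    have h3 := hp'.2.2
    linarith
  intro i _ j _ hij
  rcases lt_or_gt_of_ne hij with h | h
  · exact key i j h
  · exact (key j i h).symm

theorem Rj_union (x a : ℝ) (hx : 3 ≤ x) (ha : 0 < a) (P : Finset ℕ) (J w0 : ℕ)
    (hP : ∀ p ∈ P, w0 < p ∧ (p : ℝ) ≤ x ^ a) (hJ : yy x a J ≤ w0) : UR J (Rj x a P) = P := by
  classical
  ext p
  rw [UR, Finset.mem_biUnion]
  constructor
  · rintro ⟨j, _, hj⟩
    exact (Finset.mem_filter.1 hj).1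
  · intro hp
    obtain ⟨h1, h2⟩ := hP p hp
    have h3 : yy x a J < p := lt_of_le_of_lt hJ (by exact_mod_cast h1)
    have hex : ∃ j, yy x a j < p := ⟨J, h3⟩
    obtain ⟨j, hj⟩ : ∃ j, j = Nat.find hex := ⟨_, rfl⟩
    have hj1 : yy x a j < p := hj ▸ Nat.find_spec hex
    have hjJ : j ≤ J := hj ▸ Nat.find_min' hex h3
    cases j with
    | zero =>
      rw [yy_zero] at hj1
      exact absurd h2 (not_le.2 hj1)
    | succ i =>
      refine ⟨i, Finset.mem_range.2 hjJ, ?_⟩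
      rw [Rj, Finset.mem_filter]
      refine ⟨hp, hj1, ?_⟩
      by_contra hcon
      have h4 : Nat.find hex ≤ i := Nat.find_min' hex (not_le.1 hcon)
      omega

theorem card_Rj (x a : ℝ) (hx : 3 ≤ x) (ha : 0 < a) (P : Finset ℕ) (hP : ∀ p ∈ P, p.Prime) (K : ℕ)
    (hK : 1 ≤ K) (j : ℕ) : 1 + (K : ℝ) * (Rj x a P j).card ≤ K * yy x a j := by
  have h1 := yy_one_le x a hx ha j
  have hsub : Rj x a P j ⊆ Finset.Icc 2 ⌊yy x a j⌋₊ := by
    intro p hp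
    rw [Rj, Finset.mem_filter] at hp
    rw [Finset.mem_Icc]
    exact ⟨(hP p hp.1).two_le, Nat.le_floor hp.2.2⟩
  have hcard := Finset.card_le_card hsub
  rw [Nat.card_Icc] at hcard
  have hfl : 1 ≤ ⌊yy x a j⌋₊ := Nat.le_floor (by exact_mod_cast h1)
  have h2 : (Rj x a P j).card + 1 ≤ ⌊yy x a j⌋₊ := by omega
  have h3 : ((Rj x a P j).card : ℝ) + 1 ≤ yy x a j := by
    have h4 : (((Rj x a P j).card + 1 : ℕ) : ℝ) ≤ (⌊yy x a j⌋₊ : ℝ) := by exact_mod_cast h2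
    push_cast at h4
    exact h4.trans (Nat.floor_le (by linarith))
  have hKr : (1 : ℝ) ≤ K := by exact_mod_cast hK
  calc 1 + (K : ℝ) * (Rj x a P j).card ≤ K * ((Rj x a P j).card + 1) := by linarith
    _ ≤ K * yy x a j := mul_le_mul_of_nonneg_left h3 (by linarith)

theorem prod_yy (x a : ℝ) (hx : 3 ≤ x) (ha : 0 < a) (B J : ℕ) :
    ∏ j ∈ range J, yy x a j ^ bj B j ≤ x ^ (a * (3 * B + 4.5)) := by
  have hx0 : 0 < x := by linarith
  have key : ∀ J : ℕ, ∏ j ∈ range J, yy x a j ^ bj B j =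
      x ^ (a * (3 * B + 4.5 - (3 * B + 3 * J + 4.5) * (1 / 3 : ℝ) ^ J)) := by
    intro J
    induction J with
    | zero => simp
    | succ J ih =>
      rw [Finset.prod_range_succ, ih, yy, ← Real.rpow_natCast (x ^ (a * (1 / 3 : ℝ) ^ J)) (bj B J),
        ← Real.rpow_mul hx0.le, ← Real.rpow_add hx0]
      congr 1
      rw [bj]
      push_cast
      rw [pow_succ]
      ring
  rw [key J]
  refine Real.rpow_le_rpow_of_exponent_le (by linarith) ?_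
  refine mul_le_mul_of_nonneg_left ?_ ha.le
  have h1 : (0 : ℝ) ≤ (3 * B + 3 * J + 4.5) * (1 / 3 : ℝ) ^ J := by positivity
  linarith

theorem sum_b (B J : ℕ) : ∑ j ∈ range J, bj B j ≤ 2 * J * (B + J) := by
  induction J with
  | zero => simp
  | succ J ih =>
    rw [Finset.sum_range_succ, bj]
    have h1 : 2 * (J + 1) * (B + (J + 1)) = 2 * J * (B + J) + 2 * J + 2 * (B + J + 1) := by ring
    omega

end Pool.Agent.H95.FL
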