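import Pool.Agent.H95.FL.Def

/-!
[H95 FL GR]  Growth: `K^(2J(B+J)+1) (J+1) ≤ x^c` for `J = ⌈log log x⌉₊`.

With `L = log log x → ∞`: `J ≤ L + 1`, the logarithm of the left side is `≤ (2(L+1)(B+L+1)+1) log K + log(L+2) ≤ C_{K,B} (L+2)^2`,
and `c log x = c e^L`; `(L+2)^2/e^L → 0`.
* `depth`: `J ≥ log log x`, so `3^J ≥ e^J ≥ log x` (`log x > 0`), hence `x^(a (1/3)^J) = exp(a log x / 3^J) ≤ exp a ≤ e < 3`
  for `0 < a ≤ 1`.
-/

namespace Pool.Agent.H95.FL

open Finset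

theorem growth (K B : ℕ) (c : ℝ) (hc : 0 < c) : ∃ x0 : ℝ, 3 ≤ x0 ∧ ∀ x : ℝ, x0 ≤ x →
    (K : ℝ) ^ (2 * ⌈Real.log (Real.log x)⌉₊ * (B + ⌈Real.log (Real.log x)⌉₊) + 1) *
      (⌈Real.log (Real.log x)⌉₊ + 1) ≤ x ^ c := by
  set C : ℝ := 2 * (B + 1) * Real.log (K + 1) + 1 with hC
  have hK1 : 0 ≤ Real.log ((K : ℝ) + 1) := Real.log_nonneg (by
    have : (0 : ℝ) ≤ K := Nat.cast_nonneg _
    linarith)
  have hC0 : 0 < C := by positivity
  have hL : Filter.Tendsto (fun x : ℝ => Real.log (Real.log x)) Filter.atTop Filter.atTop :=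
    Real.tendsto_log_atTop.comp Real.tendsto_log_atTop
  have hL2 : Filter.Tendsto (fun x : ℝ => Real.log (Real.log x) + 2) Filter.atTop Filter.atTop :=
    Filter.tendsto_atTop_add_const_right _ _ hL
  have h1 := ((Real.tendsto_exp_div_pow_atTop 2).comp hL2).eventually_ge_atTop
    (C * Real.exp 2 / c)
  obtain ⟨x0, hx0⟩ := Filter.eventually_atTop.1 (h1.and (hL.eventually_ge_atTop 0))
  refine ⟨max x0 3, le_max_right _ _, fun x hx => ?_⟩
  obtain ⟨h2, h3⟩ := hx0 x ((le_max_left _ _).trans hx)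
  have hx3 : (3 : ℝ) ≤ x := (le_max_right _ _).trans hx
  have hxp : 0 < x := by linarith
  have hlx : 0 < Real.log x := Real.log_pos (by linarith)
  set L : ℝ := Real.log (Real.log x) with hLd
  set J : ℕ := ⌈L⌉₊ with hJ
  have hJ1 : (J : ℝ) ≤ L + 1 := (Nat.ceil_lt_add_one h3).le
  have hJ0 : (0 : ℝ) ≤ J := Nat.cast_nonneg _
  have hB0 : (0 : ℝ) ≤ B := Nat.cast_nonneg _
  have hK0 : (0 : ℝ) ≤ K := Nat.cast_nonneg _
  -- the exponent
  have hn : ((2 * J * (B + J) + 1 : ℕ) : ℝ) ≤ 2 * (B + 1) * (L + 2) ^ 2 := by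
    push_cast
    have e1 : (2 * J * (B + J) : ℝ) ≤ 2 * (L + 1) * (B + (L + 1)) := by gcongr
    nlinarith [mul_nonneg hB0 h3, mul_nonneg h3 h3, mul_nonneg hB0 (mul_nonneg h3 h3)]
  have h4 : (K : ℝ) ^ (2 * J * (B + J) + 1) ≤
      Real.exp (2 * (B + 1) * Real.log (K + 1) * (L + 2) ^ 2) := by
    calc (K : ℝ) ^ (2 * J * (B + J) + 1) ≤ ((K : ℝ) + 1) ^ (2 * J * (B + J) + 1) :=
          pow_le_pow_left₀ hK0 (by linarith) _
      _ = Real.exp (Real.log ((K : ℝ) + 1) * ((2 * J * (B + J) + 1 : ℕ) : ℝ)) := by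
          rw [mul_comm (Real.log ((K : ℝ) + 1)), Real.exp_nat_mul, Real.exp_log (by linarith)]
      _ ≤ Real.exp (2 * (B + 1) * Real.log (K + 1) * (L + 2) ^ 2) := by
          apply Real.exp_le_exp.2
          calc Real.log ((K : ℝ) + 1) * ((2 * J * (B + J) + 1 : ℕ) : ℝ)
              ≤ Real.log ((K : ℝ) + 1) * (2 * (B + 1) * (L + 2) ^ 2) :=
                mul_le_mul_of_nonneg_left hn hK1
            _ = _ := by ring
  have h5 : (J : ℝ) + 1 ≤ Real.exp ((L + 2) ^ 2) := by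
    have e1 := Real.add_one_le_exp ((L + 2) ^ 2)
    nlinarith
  have h6 : C * (L + 2) ^ 2 ≤ c * Real.log x := by
    have e1 : Real.exp L = Real.log x := Real.exp_log hlx
    have e2 : 0 < (L + 2) ^ 2 := by positivity
    have e3 : C * Real.exp 2 / c ≤ Real.exp (L + 2) / (L + 2) ^ 2 := h2
    rw [div_le_div_iff₀ hc e2, Real.exp_add, e1] at e3
    have e4 : 0 < Real.exp 2 := Real.exp_pos 2
    have e5 : (C * (L + 2) ^ 2) * Real.exp 2 ≤ (c * Real.log x) * Real.exp 2 := by linarith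
    exact le_of_mul_le_mul_right e5 e4
  calc (K : ℝ) ^ (2 * J * (B + J) + 1) * (J + 1)
      ≤ Real.exp (2 * (B + 1) * Real.log (K + 1) * (L + 2) ^ 2) * Real.exp ((L + 2) ^ 2) :=
        mul_le_mul h4 h5 (by positivity) (Real.exp_pos _).le
    _ = Real.exp (C * (L + 2) ^ 2) := by
        rw [← Real.exp_add, hC]
        congr 1
        ring
    _ ≤ Real.exp (c * Real.log x) := Real.exp_le_exp.2 h6
    _ = x ^ c := by rw [Real.rpow_def_of_pos hxp, mul_comm]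

theorem depth (x a : ℝ) (hx : 3 ≤ x) (ha : 0 < a) (ha1 : a ≤ 1) :
    x ^ (a * (1 / 3 : ℝ) ^ ⌈Real.log (Real.log x)⌉₊) < 3 := by
  have hxp : 0 < x := by linarith
  have hl3 : 1 < Real.log 3 := by
    have := Real.log_three_gt_d9
    norm_num at this ⊢
    linarith
  have hlx : 1 < Real.log x := hl3.trans_le (Real.log_le_log (by norm_num) hx)
  have hlx0 : 0 < Real.log x := by linarith
  set J : ℕ := ⌈Real.log (Real.log x)⌉₊ with hJ
  have h1 : Real.log (Real.log x) ≤ J := Nat.le_ceil _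
  have hexp3 : Real.exp 1 < 3 := by
    have := Real.exp_one_lt_d9
    norm_num at this ⊢
    linarith
  have h2 : Real.log x ≤ 3 ^ J := by
    calc Real.log x = Real.exp (Real.log (Real.log x)) := (Real.exp_log hlx0).symm
      _ ≤ Real.exp (J * 1) := by
          apply Real.exp_le_exp.2
          rw [mul_one]
          exact h1
      _ = Real.exp 1 ^ J := Real.exp_nat_mul 1 J
      _ ≤ 3 ^ J := pow_le_pow_left₀ (Real.exp_pos _).le hexp3.le _
  have h3 : Real.log x * (a * (1 / 3 : ℝ) ^ J) ≤ 1 := by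
    have e1 : (3 : ℝ) ^ J * (1 / 3 : ℝ) ^ J = 1 := by
      rw [← mul_pow]
      norm_num
    calc Real.log x * (a * (1 / 3 : ℝ) ^ J) ≤ 3 ^ J * (1 * (1 / 3 : ℝ) ^ J) := by gcongr
      _ = 1 := by rw [one_mul, e1]
  rw [Real.rpow_def_of_pos hxp]
  exact (Real.exp_le_exp.2 h3).trans_lt hexp3

end Pool.Agent.H95.FL
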