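import Pool.Agent.H95.FL.Def

/-!
[H95 FL AB]  The coefficients are bounded by `1`, and the support.

`|fU b S| ≤ 1`, `|fC s S| ≤ 1`, so every product `fP` has absolute value `≤ 1`.
* `supp_up`: if `up J R b S ≠ 0` then `#(S ∩ R j) ≤ b j` for all `j < J`.
* `supp_fi`: if `fP J R (Fi b i) S ≠ 0` (`i < J`) then `#(S ∩ R i) = b i + 1` and `#(S ∩ R j) ≤ b j` for `j < J`, `j ≠ i`.
* `lo_abs`: at most one of the `J + 1` terms `up J R b S`, `fP J R (Fi b i) S` (`i < J`) is nonzero (if the term `i` and the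
  term `i' ≠ i` are nonzero, `#(S ∩ R i) = b i + 1` and `≤ b i`, contradiction; the same for the term `i` and `up`), and
  each has absolute value `≤ 1`.
* `supp_lo`: if `lo J R b S ≠ 0` then one of the terms is nonzero, hence there is `i0 : ℕ` with
  `#(S ∩ R j) ≤ b j + (if j = i0 then 1 else 0)` for all `j < J`.
-/

namespace Pool.Agent.H95.FL

open Finset

variable (J : ℕ) (R : ℕ → Finset ℕ) (b : ℕ → ℕ)

theorem ab_fU (c : ℕ) (S : Finset ℕ) : |fU c S| ≤ 1 := by
  unfold fU
  split_ifs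
  · rw [abs_pow, abs_neg, abs_one, one_pow]
  · rw [abs_zero]
    exact zero_le_one

theorem ab_fC (c : ℕ) (S : Finset ℕ) : |fC c S| ≤ 1 := by
  unfold fC
  split_ifs
  · rw [abs_one]
  · rw [abs_zero]
    exact zero_le_one

theorem ab_fP (F : ℕ → Finset ℕ → ℝ) (hF : ∀ j T, |F j T| ≤ 1) (S : Finset ℕ) :
    |fP J R F S| ≤ 1 := by
  unfold fP
  rw [Finset.abs_prod]
  exact Finset.prod_le_one (fun j _ => abs_nonneg _) fun j _ => hF j _

theorem ab_Fi (i : ℕ) (j : ℕ) (T : Finset ℕ) : |Fi b i j T| ≤ 1 := by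
  unfold Fi
  split_ifs
  · exact ab_fC _ _
  · exact ab_fU _ _

theorem ab_fU_ne {c : ℕ} {S : Finset ℕ} (h : fU c S ≠ 0) : S.card ≤ c := by
  unfold fU at h
  by_contra hc
  rw [if_neg hc] at h
  exact h rfl

theorem ab_fC_ne {c : ℕ} {S : Finset ℕ} (h : fC c S ≠ 0) : S.card = c := by
  unfold fC at h
  by_contra hc
  rw [if_neg hc] at h
  exact h rfl

theorem up_abs (S : Finset ℕ) : |up J R b S| ≤ 1 :=
  ab_fP J R _ (fun j T => ab_fU (b j) T) S

theorem supp_up (S : Finset ℕ) (h : up J R b S ≠ 0) : ∀ j < J, (S ∩ R j).card ≤ b j := by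
  intro j hj
  unfold up fP at h
  rw [Finset.prod_ne_zero_iff] at h
  exact ab_fU_ne (h j (Finset.mem_range.2 hj))

theorem supp_fi (S : Finset ℕ) (i : ℕ) (hi : i < J) (h : fP J R (Fi b i) S ≠ 0) :
    (S ∩ R i).card = b i + 1 ∧ ∀ j < J, j ≠ i → (S ∩ R j).card ≤ b j := by
  unfold fP at h
  rw [Finset.prod_ne_zero_iff] at h
  constructor
  · have h1 := h i (Finset.mem_range.2 hi)
    unfold Fi at h1
    rw [if_pos rfl] at h1
    exact ab_fC_ne h1
  · intro j hj hji
    have h1 := h j (Finset.mem_range.2 hj)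
    unfold Fi at h1
    rw [if_neg hji] at h1
    exact ab_fU_ne h1

theorem lo_abs (S : Finset ℕ) : |lo J R b S| ≤ 1 := by
  unfold lo
  by_cases hex : ∃ i < J, fP J R (Fi b i) S ≠ 0
  · obtain ⟨i, hi, hne⟩ := hex
    obtain ⟨h1, h2⟩ := supp_fi J R b S i hi hne
    have hup : up J R b S = 0 := by
      by_contra h
      have := supp_up J R b S h i hi
      omega
    have hsum : ∑ i ∈ range J, fP J R (Fi b i) S = fP J R (Fi b i) S := by
      refine Finset.sum_eq_single i ?_ ?_
      · intro j hj hji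
        by_contra h
        have h3 := supp_fi J R b S j (Finset.mem_range.1 hj) h
        have h4 := h3.2 i hi (Ne.symm hji)
        omega
      · intro h
        exact absurd (Finset.mem_range.2 hi) h
    rw [hup, hsum, zero_sub, abs_neg]
    exact ab_fP J R _ (ab_Fi b i) S
  · push Not at hex
    rw [Finset.sum_eq_zero fun i hi => hex i (Finset.mem_range.1 hi), sub_zero]
    exact up_abs J R b S

theorem supp_lo (S : Finset ℕ) (h : lo J R b S ≠ 0) :
    ∃ i0 : ℕ, ∀ j < J, (S ∩ R j).card ≤ b j + (if j = i0 then 1 else 0) := by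
  by_cases hex : ∃ i < J, fP J R (Fi b i) S ≠ 0
  · obtain ⟨i, hi, hne⟩ := hex
    obtain ⟨h1, h2⟩ := supp_fi J R b S i hi hne
    refine ⟨i, fun j hj => ?_⟩
    by_cases hji : j = i
    · rw [if_pos hji, hji, h1]
    · rw [if_neg hji]
      exact h2 j hj hji
  · push Not at hex
    have hup : up J R b S ≠ 0 := by
      intro h0
      apply h
      unfold lo
      rw [h0, Finset.sum_eq_zero fun i hi => hex i (Finset.mem_range.1 hi), sub_zero]
    refine ⟨J, fun j hj => ?_⟩
    have := supp_up J R b S hup j hj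
    omega

end Pool.Agent.H95.FL
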