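import Pool.Agent.H95.FL.Pu
import Pool.Agent.H95.FL.Ab

/-!
[H95 FL LV]  The level.

Hypotheses: the elements of `R j` are `≥ 1` and `≤ y j` (`j < J`), `y` real valued, `1 ≤ y j ≤ Y`.
* `level_up`, `level_lo`: for `S ⊆ UR J R` with nonzero coefficient, `∏ S = ∏_j ∏_{S ∩ R j} ≤ ∏_j (y j)^(b j)`, with one extra
  factor `≤ Y` for `lo` (`supp_up`, `supp_lo`; if `i0 ≥ J` the extra factor `Y ≥ 1` is harmless; `Finset.prod_biUnion`).
* `mass_one`: `∑_{S ⊆ T} |fU b S| K^#S = ∑_{k ≤ b} C(#T,k) K^k ≤ (1 + K #T)^b` since `C(n,k) ≤ n^k` and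
  `(1 + K n)^b = ∑_k C(b,k) (K n)^k ≥ ∑_{k ≤ b} (K n)^k` (`C(b,k) ≥ 1` for `k ≤ b`); `∑_{S ⊆ T} |fC (b+1) S| K^#S = C(#T,b+1) K^(b+1)
  ≤ (1 + K #T)^b * (1 + K #T)`.
* `mass_up`, `mass_lo`: `|lo S| ≤ |up S| + ∑_i |fP (Fi b i) S|`, `|fP J R F S| = fP J R |F| S`, and `sum_blocks` (module PU) with
  `g = fun _ => K`: `∑_S |fP J R F S| K^#S = ∏_j ∑_{S ⊆ R j} |F j S| K^#S`; with `1 + K #(R j) ≤ m j ≤ M` (`j < J`, `1 ≤ m j`):
  `≤ ∏_j (m j)^(b j) * (1 + J M)`.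
-/

namespace Pool.Agent.H95.FL

open Finset

variable (J : ℕ) (R : ℕ → Finset ℕ) (b : ℕ → ℕ)

theorem level_aux (hR : Dj J R) (y : ℕ → ℝ) (hy1 : ∀ j < J, 1 ≤ y j)
    (hy : ∀ j < J, ∀ p ∈ R j, (p : ℝ) ≤ y j) (S : Finset ℕ) (hS : S ⊆ UR J R) (c : ℕ → ℕ)
    (hc : ∀ j < J, (S ∩ R j).card ≤ c j) : ∏ p ∈ S, (p : ℝ) ≤ ∏ j ∈ range J, y j ^ c j := by
  classical
  have h1 : S = (range J).biUnion fun j => S ∩ R j := by
    ext p
    rw [mem_biUnion]
    constructor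
    · intro hp
      obtain ⟨j, hj, hpj⟩ := mem_biUnion.1 (hS hp)
      exact ⟨j, hj, mem_inter.2 ⟨hp, hpj⟩⟩
    · rintro ⟨j, _, hpj⟩
      exact (mem_inter.1 hpj).1
  have h2 : ∏ p ∈ S, (p : ℝ) = ∏ j ∈ range J, ∏ p ∈ S ∩ R j, (p : ℝ) := by
    conv_lhs => rw [h1]
    rw [prod_biUnion]
    intro i hi j hj hij
    exact (hR i (mem_range.1 hi) j (mem_range.1 hj) hij).mono inter_subset_right inter_subset_right
  rw [h2]
  refine prod_le_prod (fun j _ => prod_nonneg fun p _ => Nat.cast_nonneg p) fun j hj => ?_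
  have hj' := mem_range.1 hj
  calc ∏ p ∈ S ∩ R j, (p : ℝ) ≤ ∏ _p ∈ S ∩ R j, y j :=
        prod_le_prod (fun p _ => Nat.cast_nonneg p) fun p hp => hy j hj' p (mem_inter.1 hp).2
    _ = y j ^ (S ∩ R j).card := by rw [prod_const]
    _ ≤ y j ^ c j := pow_le_pow_right₀ (hy1 j hj') (hc j hj')

theorem sum_pow_le (x : ℝ) (hx : 0 ≤ x) (c : ℕ) : ∑ k ∈ range (c + 1), x ^ k ≤ (1 + x) ^ c := by
  rw [add_comm 1 x, add_pow]
  refine sum_le_sum fun k hk => ?_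
  rw [one_pow, mul_one]
  have h1 : (1 : ℝ) ≤ c.choose k := by
    exact_mod_cast Nat.choose_pos (Nat.lt_succ_iff.1 (mem_range.1 hk))
  have h2 : 0 ≤ x ^ k := pow_nonneg hx k
  nlinarith

theorem choose_mul_pow_le (n k K : ℕ) : ((n.choose k : ℕ) : ℝ) * (K : ℝ) ^ k ≤ ((K : ℝ) * n) ^ k := by
  rw [mul_pow, mul_comm]
  refine mul_le_mul_of_nonneg_left ?_ (by positivity)
  exact_mod_cast Nat.choose_le_pow n k

theorem mass_prod (hR : Dj J R) (K : ℕ) (F : ℕ → Finset ℕ → ℝ) :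
    ∑ S ∈ (UR J R).powerset, |fP J R F S| * (K : ℝ) ^ S.card =
      ∏ j ∈ range J, ∑ S ∈ (R j).powerset, |F j S| * (K : ℝ) ^ S.card := by
  have h1 := sum_blocks J R hR (fun j S => |F j S|) (fun _ => (K : ℝ))
  unfold mean at h1
  simp only [prod_const] at h1
  rw [← h1]
  refine sum_congr rfl fun S _ => ?_
  unfold fP
  rw [abs_prod]

theorem mass_fi (hR : Dj J R) (K : ℕ) (m : ℕ → ℝ) (i : ℕ) (hi : i < J)
    (hm : ∀ j < J, 1 + (K : ℝ) * (R j).card ≤ m j) (hU : ∀ (T : Finset ℕ) (c : ℕ),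
      ∑ S ∈ T.powerset, |fU c S| * (K : ℝ) ^ S.card ≤ (1 + (K : ℝ) * T.card) ^ c)
    (hC : ∀ (T : Finset ℕ) (c : ℕ),
      ∑ S ∈ T.powerset, |fC (c + 1) S| * (K : ℝ) ^ S.card ≤ (1 + (K : ℝ) * T.card) ^ (c + 1)) :
    ∑ S ∈ (UR J R).powerset, |fP J R (Fi b i) S| * (K : ℝ) ^ S.card ≤
      (∏ j ∈ range J, m j ^ b j) * m i := by
  rw [mass_prod J R hR]
  have h1 : (∏ j ∈ range J, m j ^ b j) * m i = ∏ j ∈ range J, m j ^ (b j + if j = i then 1 else 0) := by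
    simp only [pow_add, prod_mul_distrib]
    congr 1
    rw [prod_eq_single i]
    · rw [if_pos rfl, pow_one]
    · intro j _ hj
      rw [if_neg hj, pow_zero]
    · intro h
      exact absurd (mem_range.2 hi) h
  rw [h1]
  refine prod_le_prod (fun j _ => sum_nonneg fun S _ => by positivity) fun j hj => ?_
  have hj' := mem_range.1 hj
  have hnn : (0 : ℝ) ≤ 1 + (K : ℝ) * (R j).card := by positivity
  rw [Fi]
  split_ifs with h
  · exact (hC (R j) (b j)).trans (pow_le_pow_left₀ hnn (hm j hj') _)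
  · rw [add_zero]
    exact (hU (R j) (b j)).trans (pow_le_pow_left₀ hnn (hm j hj') _)

theorem level_up (hR : Dj J R) (y : ℕ → ℝ) (hy1 : ∀ j < J, 1 ≤ y j)
    (hy : ∀ j < J, ∀ p ∈ R j, (p : ℝ) ≤ y j) (S : Finset ℕ) (hS : S ⊆ UR J R)
    (h : up J R b S ≠ 0) : ∏ p ∈ S, (p : ℝ) ≤ ∏ j ∈ range J, y j ^ b j := by
  exact level_aux J R hR y hy1 hy S hS b (supp_up J R b S h)

theorem level_lo (hR : Dj J R) (y : ℕ → ℝ) (Y : ℝ) (hY : 1 ≤ Y) (hy1 : ∀ j < J, 1 ≤ y j)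
    (hyY : ∀ j < J, y j ≤ Y) (hy : ∀ j < J, ∀ p ∈ R j, (p : ℝ) ≤ y j) (S : Finset ℕ)
    (hS : S ⊆ UR J R) (h : lo J R b S ≠ 0) :
    ∏ p ∈ S, (p : ℝ) ≤ (∏ j ∈ range J, y j ^ b j) * Y := by
  obtain ⟨i0, hi0⟩ := supp_lo J R b S h
  refine (level_aux J R hR y hy1 hy S hS _ hi0).trans ?_
  simp only [pow_add, prod_mul_distrib]
  refine mul_le_mul_of_nonneg_left ?_ (prod_nonneg fun j hj =>
    pow_nonneg (by linarith [hy1 j (mem_range.1 hj)]) _)
  by_cases hi : i0 < J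
  · rw [prod_eq_single i0]
    · rw [if_pos rfl, pow_one]
      exact hyY i0 hi
    · intro j _ hj
      rw [if_neg hj, pow_zero]
    · intro h
      exact absurd (mem_range.2 hi) h
  · rw [prod_eq_one]
    · exact hY
    · intro j hj
      rw [if_neg, pow_zero]
      rintro rfl
      exact hi (mem_range.1 hj)

theorem mass_fU (K : ℕ) (T : Finset ℕ) (c : ℕ) :
    ∑ S ∈ T.powerset, |fU c S| * (K : ℝ) ^ S.card ≤ (1 + (K : ℝ) * T.card) ^ c := by
  classical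
  have h1 : ∀ S ∈ T.powerset, |fU c S| * (K : ℝ) ^ S.card =
      (fun k => (if k ≤ c then (1 : ℝ) else 0) * (K : ℝ) ^ k) S.card := by
    intro S _
    simp only [fU]
    split_ifs with h
    · rw [abs_pow, abs_neg, abs_one, one_pow]
    · rw [abs_zero]
  rw [sum_congr rfl h1,
    sum_powerset_apply_card (x := T) (fun k => (if k ≤ c then (1 : ℝ) else 0) * (K : ℝ) ^ k)]
  have h2 : ∀ k ∈ range (T.card + 1), T.card.choose k • ((if k ≤ c then (1 : ℝ) else 0) * (K : ℝ) ^ k) =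
      if k ≤ c then ((T.card.choose k : ℕ) : ℝ) * (K : ℝ) ^ k else 0 := by
    intro k _
    rw [nsmul_eq_mul]
    split_ifs <;> ring
  rw [sum_congr rfl h2, ← sum_filter]
  calc ∑ k ∈ (range (T.card + 1)).filter (fun k => k ≤ c), ((T.card.choose k : ℕ) : ℝ) * (K : ℝ) ^ k
      ≤ ∑ k ∈ range (c + 1), ((T.card.choose k : ℕ) : ℝ) * (K : ℝ) ^ k := by
        refine sum_le_sum_of_subset_of_nonneg ?_ fun k _ _ => by positivity
        intro k hk
        rw [mem_filter] at hk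
        exact mem_range.2 (Nat.lt_succ_of_le hk.2)
    _ ≤ ∑ k ∈ range (c + 1), ((K : ℝ) * T.card) ^ k :=
        sum_le_sum fun k _ => choose_mul_pow_le T.card k K
    _ ≤ (1 + (K : ℝ) * T.card) ^ c := sum_pow_le _ (by positivity) c

theorem mass_fC (K : ℕ) (T : Finset ℕ) (c : ℕ) :
    ∑ S ∈ T.powerset, |fC (c + 1) S| * (K : ℝ) ^ S.card ≤ (1 + (K : ℝ) * T.card) ^ (c + 1) := by
  classical
  have h1 : ∀ S ∈ T.powerset, |fC (c + 1) S| * (K : ℝ) ^ S.card =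
      (fun k => (if k = c + 1 then (1 : ℝ) else 0) * (K : ℝ) ^ k) S.card := by
    intro S _
    simp only [fC]
    split_ifs with h
    · rw [abs_one]
    · rw [abs_zero]
  rw [sum_congr rfl h1,
    sum_powerset_apply_card (x := T) (fun k => (if k = c + 1 then (1 : ℝ) else 0) * (K : ℝ) ^ k)]
  have h2 : ∀ k ∈ range (T.card + 1),
      T.card.choose k • ((if k = c + 1 then (1 : ℝ) else 0) * (K : ℝ) ^ k) =
      if k = c + 1 then ((T.card.choose k : ℕ) : ℝ) * (K : ℝ) ^ k else 0 := by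
    intro k _
    rw [nsmul_eq_mul]
    split_ifs <;> ring
  rw [sum_congr rfl h2, ← sum_filter]
  calc ∑ k ∈ (range (T.card + 1)).filter (fun k => k = c + 1),
        ((T.card.choose k : ℕ) : ℝ) * (K : ℝ) ^ k
      ≤ ∑ k ∈ {c + 1}, ((T.card.choose k : ℕ) : ℝ) * (K : ℝ) ^ k := by
        refine sum_le_sum_of_subset_of_nonneg ?_ fun k _ _ => by positivity
        intro k hk
        rw [mem_filter] at hk
        exact mem_singleton.2 hk.2
    _ ≤ ((K : ℝ) * T.card) ^ (c + 1) := by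
        rw [sum_singleton]
        exact choose_mul_pow_le T.card (c + 1) K
    _ ≤ (1 + (K : ℝ) * T.card) ^ (c + 1) :=
        pow_le_pow_left₀ (by positivity) (by linarith) _

theorem mass_up (hR : Dj J R) (K : ℕ) (m : ℕ → ℝ) (hm : ∀ j < J, 1 + (K : ℝ) * (R j).card ≤ m j) :
    ∑ S ∈ (UR J R).powerset, |up J R b S| * (K : ℝ) ^ S.card ≤ ∏ j ∈ range J, m j ^ b j := by
  have h1 := mass_prod J R hR K (fun j => fU (b j))
  change ∑ S ∈ (UR J R).powerset, |fP J R (fun j => fU (b j)) S| * (K : ℝ) ^ S.card ≤ _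
  rw [h1]
  refine prod_le_prod (fun j _ => sum_nonneg fun S _ => by positivity) fun j hj => ?_
  have hnn : (0 : ℝ) ≤ 1 + (K : ℝ) * (R j).card := by positivity
  exact (mass_fU K (R j) (b j)).trans (pow_le_pow_left₀ hnn (hm j (mem_range.1 hj)) _)

theorem mass_lo (hR : Dj J R) (K : ℕ) (m : ℕ → ℝ) (M : ℝ)
    (hm : ∀ j < J, 1 + (K : ℝ) * (R j).card ≤ m j) (hM : ∀ j < J, m j ≤ M) :
    ∑ S ∈ (UR J R).powerset, |lo J R b S| * (K : ℝ) ^ S.card ≤
      (∏ j ∈ range J, m j ^ b j) * (1 + J * M) := by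
  have hP : 0 ≤ ∏ j ∈ range J, m j ^ b j := by
    refine prod_nonneg fun j hj => pow_nonneg ?_ _
    refine le_trans ?_ (hm j (mem_range.1 hj))
    positivity
  have h1 : ∀ S ∈ (UR J R).powerset, |lo J R b S| * (K : ℝ) ^ S.card ≤
      |up J R b S| * (K : ℝ) ^ S.card +
        ∑ i ∈ range J, |fP J R (Fi b i) S| * (K : ℝ) ^ S.card := by
    intro S _
    rw [← sum_mul, ← add_mul]
    refine mul_le_mul_of_nonneg_right ?_ (by positivity)
    unfold lo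
    exact (abs_sub _ _).trans (add_le_add le_rfl (abs_sum_le_sum_abs _ _))
  refine (sum_le_sum h1).trans ?_
  rw [sum_add_distrib, sum_comm]
  have h2 : ∑ i ∈ range J, ∑ S ∈ (UR J R).powerset, |fP J R (Fi b i) S| * (K : ℝ) ^ S.card ≤
      ∑ _i ∈ range J, (∏ j ∈ range J, m j ^ b j) * M := by
    refine sum_le_sum fun i hi => ?_
    have hi' := mem_range.1 hi
    exact (mass_fi J R b hR K m i hi' hm (mass_fU K) (mass_fC K)).trans
      (mul_le_mul_of_nonneg_left (hM i hi') hP)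
  rw [sum_const, card_range, nsmul_eq_mul] at h2
  have h3 := mass_up J R b hR K m hm
  linarith

end Pool.Agent.H95.FL
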