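import Pool.Agent.H95.FL.Def
import Pool.Agent.H75.AP.MertensB

/-!
[H95 FL ME]  The mass of one block.

`mertens_ratio 3 (1/100)` (`Pool/Agent/H75/AP/MertensB.lean`, `PI u v` = primes in `(u, v]`) gives `u0 > 1` with
`∑_{u < p ≤ v} 1/p ≤ log 3 + 1/100 ≤ 1.11` for `u ≥ u0`, `v ≤ u^3` (real exponent there).  Take `w0 = max u0 (100 K) + 3`.
For `T` as in the statement put `u' = max u w0 ≥ u0`; all `p ∈ T` lie in `(u', u'^3]` (`u ≤ u'`, `u ≥ 1`), so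
`∑_T 1/p ≤ 1.11` (subset sum, terms `≥ 0`), hence the first claim.  `K/p ≤ 1/100` since `p > 100 K`.
`vv = ∏ (1 - K/p) ≥ exp(-∑ (t + t^2))` with `t = K/p ≤ 1/100` (`log(1-t) ≥ -t - t^2` for `0 ≤ t ≤ 1/2`, or
`1 - t ≥ exp(-t - t^2)`), and `∑ (t + t^2) ≤ 1.01 * 1.11 K ≤ 1.2 K`.  (`log 3 ≤ 1.0987`: `Real.log_three_lt_d9` or similar may
exist in Mathlib or in `H75/AP/Num*.lean`.)
-/

namespace Pool.Agent.H95.FL

open Finset

private theorem me_exp (t : ℝ) (h0 : 0 ≤ t) (h1 : t ≤ 1 / 100) :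
    Real.exp (-(102 / 100 * t)) ≤ 1 - t := by
  have h2 := Real.add_one_le_exp (102 / 100 * t)
  have h3 : Real.exp (-(102 / 100 * t)) * Real.exp (102 / 100 * t) = 1 := by
    rw [← Real.exp_add, neg_add_cancel, Real.exp_zero]
  have h4 : 1 ≤ (1 - t) * Real.exp (102 / 100 * t) := by
    have h5 : (1 - t) * (102 / 100 * t + 1) ≤ (1 - t) * Real.exp (102 / 100 * t) :=
      mul_le_mul_of_nonneg_left h2 (by linarith)
    nlinarith
  exact le_of_mul_le_mul_right (h3.trans_le h4) (Real.exp_pos _)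

theorem block_mass (K : ℕ) (hK : 1 ≤ K) : ∃ w0 : ℕ, 3 ≤ w0 ∧ ∀ (T : Finset ℕ) (u : ℝ), 1 ≤ u →
    (∀ p ∈ T, p.Prime ∧ w0 < p ∧ u < (p : ℝ) ∧ (p : ℝ) ≤ u ^ 3) →
    ∑ p ∈ T, (K : ℝ) / p ≤ 1.11 * K ∧ Real.exp (-(1.2 * K)) ≤ vv (fun p => (K : ℝ) / p) T ∧
    ∀ p ∈ T, (K : ℝ) / p ≤ 1 / 100 := by
  obtain ⟨u0, hu0, hm⟩ := Pool.Agent.H75.AP.mertens_ratio 3 (1 / 100) (by norm_num) (by norm_num)
  have hK0 : (1 : ℝ) ≤ K := by exact_mod_cast hK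
  refine ⟨max ⌈u0⌉₊ (100 * K) + 3, Nat.le_add_left _ _, fun T u hu hT => ?_⟩
  set w0 : ℕ := max ⌈u0⌉₊ (100 * K) + 3 with hw0
  have hw1 : u0 ≤ (w0 : ℝ) := by
    have h1 : u0 ≤ (⌈u0⌉₊ : ℝ) := Nat.le_ceil _
    have h2 : ⌈u0⌉₊ ≤ w0 := (le_max_left _ _).trans (Nat.le_add_right _ _)
    have h3 : (⌈u0⌉₊ : ℝ) ≤ w0 := by exact_mod_cast h2
    linarith
  have hw2 : (100 * K : ℝ) ≤ (w0 : ℝ) := by
    have h2 : 100 * K ≤ w0 := (le_max_right _ _).trans (Nat.le_add_right _ _)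
    exact_mod_cast h2
  set u' : ℝ := max u (w0 : ℝ) with hu'
  have hu'0 : 0 ≤ u' := le_trans (by linarith) (le_max_left _ _)
  have hmass : ∑ p ∈ T, 1 / (p : ℝ) ≤ 111 / 100 := by
    have h1 := hm u' (u' ^ (3 : ℝ)) (hw1.trans (le_max_right _ _)) le_rfl
    have h2 : ∑ p ∈ T, 1 / (p : ℝ) ≤
        ∑ p ∈ Pool.Agent.H75.AP.PI u' (u' ^ (3 : ℝ)), 1 / (p : ℝ) := by
      refine Finset.sum_le_sum_of_subset_of_nonneg ?_ fun p _ _ => by positivity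
      intro p hp
      obtain ⟨a1, a2, a3, a4⟩ := hT p hp
      rw [Pool.Agent.H75.AP.MertB.mem_PI hu'0]
      refine ⟨a1, max_lt a3 (by exact_mod_cast a2), a4.trans ?_⟩
      rw [show (3 : ℝ) = ((3 : ℕ) : ℝ) by norm_num, Real.rpow_natCast]
      exact pow_le_pow_left₀ (by linarith) (le_max_left _ _) 3
    have h3 := Real.log_three_lt_d9
    have h4 : Real.log 3 + 1 / 100 ≤ 111 / 100 := by
      norm_num at h3 ⊢
      linarith
    exact h2.trans (h1.trans h4)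
  have hsum : ∑ p ∈ T, (K : ℝ) / p ≤ 1.11 * K := by
    have h1 : ∑ p ∈ T, (K : ℝ) / p = K * ∑ p ∈ T, 1 / (p : ℝ) := by
      rw [Finset.mul_sum]
      exact Finset.sum_congr rfl fun p _ => by rw [mul_one_div]
    rw [h1]
    have h2 : (K : ℝ) * ∑ p ∈ T, 1 / (p : ℝ) ≤ K * (111 / 100) :=
      mul_le_mul_of_nonneg_left hmass (by linarith)
    norm_num at h2 ⊢
    linarith
  have hsm : ∀ p ∈ T, (K : ℝ) / p ≤ 1 / 100 := by
    intro p hp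
    obtain ⟨a1, a2, a3, a4⟩ := hT p hp
    have h1 : (w0 : ℝ) < p := by exact_mod_cast a2
    rw [div_le_iff₀ (by linarith)]
    linarith
  refine ⟨hsum, ?_, hsm⟩
  unfold vv
  have h1 : ∏ p ∈ T, Real.exp (-(102 / 100 * ((K : ℝ) / p))) ≤ ∏ p ∈ T, (1 - (K : ℝ) / p) :=
    Finset.prod_le_prod (fun p _ => (Real.exp_pos _).le)
      (fun p hp => me_exp _ (by positivity) (hsm p hp))
  refine le_trans ?_ h1
  rw [← Real.exp_sum]
  apply Real.exp_le_exp.2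
  rw [Finset.sum_neg_distrib, ← Finset.mul_sum]
  have h2 : (102 / 100 : ℝ) * ∑ p ∈ T, (K : ℝ) / p ≤ 102 / 100 * (1.11 * K) :=
    mul_le_mul_of_nonneg_left hsum (by norm_num)
  norm_num at h2 ⊢
  linarith

end Pool.Agent.H95.FL
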