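import Pool.Agent.H95.FL.Def

/-!
[H95 FL TL]  The tail of the exponential series, uniformly in the dimension.

Put `c = 2.22 K`, `n = 2B + 3`, `B = ⌊η/(6a)⌋₊ - 3`.  `a (3B + 5.5) ≤ η/2` and `n ≥ η/(6a)` (for `a ≤ η/30`).
With `c/n ≤ 13.32 c0/η ≤ e^(-L-1)`, `L = 6(Λ+3)/η`: `c^n/n! ≤ (e c/n)^n ≤ e^(-L n) ≤ e^(-(Λ+3)/a)`, the terms of the
sum decrease by the factor `1/2`, and `e^(2.4K) ≤ e^(2.4/a)` as `K ≤ c0/a ≤ 1/a`.
-/

namespace Pool.Agent.H95.FL

open Finset

/-- one term: `c^n/n! ≤ (c/n * e)^n` -/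
theorem tl_term (c : ℝ) (hc : 0 ≤ c) (n : ℕ) (hn : 0 < n) :
    c ^ n / (n.factorial : ℝ) ≤ (c / n * Real.exp 1) ^ n := by
  have hn' : (0 : ℝ) < n := by exact_mod_cast hn
  have h1 : (n : ℝ) ^ n / (n.factorial : ℝ) ≤ Real.exp n :=
    Real.pow_div_factorial_le_exp (n : ℝ) (by positivity) n
  have h2 : Real.exp (n : ℝ) = Real.exp 1 ^ n := by
    rw [← Real.exp_nat_mul, mul_one]
  calc c ^ n / (n.factorial : ℝ) = (c / n) ^ n * ((n : ℝ) ^ n / n.factorial) := by
        rw [div_pow]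
        field_simp
    _ ≤ (c / n) ^ n * Real.exp 1 ^ n := by
        rw [← h2]
        gcongr
    _ = _ := by rw [← mul_pow]

/-- geometric decrease of the terms -/
theorem tl_sum (c : ℝ) (hc : 0 ≤ c) (n : ℕ) (hn : 2 * c ≤ n) (J : ℕ) :
    ∑ j ∈ range J, c ^ (n + 2 * j) / ((n + 2 * j).factorial : ℝ) ≤
      (2 - 2 * (1 / 2 : ℝ) ^ J) * (c ^ n / (n.factorial : ℝ)) := by
  have hstep : ∀ j : ℕ, c ^ (n + 2 * j) / ((n + 2 * j).factorial : ℝ) ≤
      (1 / 2 : ℝ) ^ j * (c ^ n / (n.factorial : ℝ)) := by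
    intro j
    induction j with
    | zero => simp
    | succ j ih =>
      have hf : (((n + 2 * (j + 1)).factorial : ℕ) : ℝ) =
          ((n : ℝ) + 2 * j + 2) * (((n : ℝ) + 2 * j + 1) * ((n + 2 * j).factorial : ℝ)) := by
        have : n + 2 * (j + 1) = (n + 2 * j + 1) + 1 := by ring
        rw [this, Nat.factorial_succ, Nat.factorial_succ]
        push_cast
        ring
      have hn0 : (0 : ℝ) ≤ n := by positivity
      have hj0 : (0 : ℝ) ≤ j := by positivity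
      have hF : (0 : ℝ) < (n + 2 * j).factorial := by positivity
      have hden : 0 < ((n : ℝ) + 2 * j + 2) * ((n : ℝ) + 2 * j + 1) := by positivity
      have h2 : c ^ 2 / (((n : ℝ) + 2 * j + 2) * ((n : ℝ) + 2 * j + 1)) ≤ 1 / 2 := by
        rw [div_le_iff₀ hden]
        nlinarith
      calc c ^ (n + 2 * (j + 1)) / (((n + 2 * (j + 1)).factorial : ℕ) : ℝ)
          = c ^ 2 / (((n : ℝ) + 2 * j + 2) * ((n : ℝ) + 2 * j + 1)) *
            (c ^ (n + 2 * j) / ((n + 2 * j).factorial : ℝ)) := by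
            rw [hf, show n + 2 * (j + 1) = (n + 2 * j) + 2 by ring, pow_add]
            field_simp
        _ ≤ 1 / 2 * ((1 / 2 : ℝ) ^ j * (c ^ n / (n.factorial : ℝ))) := by
            gcongr
        _ = _ := by rw [pow_succ]; ring
  induction J with
  | zero => simp
  | succ J ih =>
    rw [sum_range_succ]
    have h := hstep J
    have h2 : (2 - 2 * (1 / 2 : ℝ) ^ (J + 1)) * (c ^ n / (n.factorial : ℝ)) =
        (2 - 2 * (1 / 2 : ℝ) ^ J) * (c ^ n / (n.factorial : ℝ)) +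
          (1 / 2 : ℝ) ^ J * (c ^ n / (n.factorial : ℝ)) := by
      rw [pow_succ]; ring
    rw [h2]
    linarith

theorem tail (η Λ : ℝ) (hη : 0 < η) (hΛ : 0 < Λ) : ∃ c0 : ℝ, 0 < c0 ∧ c0 ≤ 1 ∧
    ∀ K : ℕ, 1 ≤ K → ∀ a : ℝ, 0 < a → a ≤ c0 / K → ∃ B : ℕ, a * (3 * B + 5.5) ≤ η / 2 ∧
      ∀ J : ℕ, ∑ j ∈ range J, ((2.22 * (K : ℝ)) ^ (2 * (B + j + 1) + 1) /
        (2 * (B + j + 1) + 1).factorial * Real.exp (2.4 * K)) ≤ Real.exp (-(Λ / a)) / 2 := by
  set L : ℝ := 6 * (Λ + 3) / η with hL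
  have hL0 : 0 < L := by positivity
  set c0 : ℝ := min (η / 30) (min (2 / 5) (η * Real.exp (-(L + 1)) / 14)) with hc0
  have hc0pos : 0 < c0 := by
    rw [hc0]
    apply lt_min (by positivity) (lt_min (by norm_num) (by positivity))
  have hc1 : c0 ≤ η / 30 := min_le_left _ _
  have hc2 : c0 ≤ 2 / 5 := (min_le_right _ _).trans (min_le_left _ _)
  have hc3 : c0 ≤ η * Real.exp (-(L + 1)) / 14 := (min_le_right _ _).trans (min_le_right _ _)
  refine ⟨c0, hc0pos, by linarith, ?_⟩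
  intro K hK a ha haK
  have hK' : (1 : ℝ) ≤ K := by exact_mod_cast hK
  have hKpos : (0 : ℝ) < K := by linarith
  have haK' : a * K ≤ c0 := (le_div_iff₀ hKpos).1 haK
  have hac : a ≤ c0 := by nlinarith
  have h5 : 5 ≤ η / (6 * a) := by
    rw [le_div_iff₀ (by positivity)]
    nlinarith
  have hfl : (5 : ℕ) ≤ ⌊η / (6 * a)⌋₊ := Nat.le_floor (by exact_mod_cast h5)
  have hfl1 : (⌊η / (6 * a)⌋₊ : ℝ) ≤ η / (6 * a) := Nat.floor_le (by positivity)
  have hfl2 : η / (6 * a) < (⌊η / (6 * a)⌋₊ : ℝ) + 1 := Nat.lt_floor_add_one _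
  set B : ℕ := ⌊η / (6 * a)⌋₊ - 3 with hB
  have hBr : (B : ℝ) = (⌊η / (6 * a)⌋₊ : ℝ) - 3 := by
    rw [hB, Nat.cast_sub (by omega)]
    norm_num
  refine ⟨B, ?_, ?_⟩
  · have h6 : a * (η / (6 * a)) = η / 6 := by field_simp
    have h7 : a * (B : ℝ) ≤ η / 6 - 3 * a := by
      rw [hBr, mul_sub]
      have := mul_le_mul_of_nonneg_left hfl1 ha.le
      linarith
    linarith
  intro J
  set n : ℕ := 2 * B + 3 with hn
  have hnr : (n : ℝ) = 2 * (⌊η / (6 * a)⌋₊ : ℝ) - 3 := by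
    rw [hn]; push_cast; rw [hBr]; ring
  have hnl : η / (6 * a) ≤ n := by rw [hnr]; linarith
  have hnpos : (0 : ℝ) < n := by linarith
  have hnpos' : 0 < n := by omega
  set c : ℝ := 2.22 * (K : ℝ) with hc
  have hcpos : 0 < c := by positivity
  have hcn : c / n ≤ Real.exp (-(L + 1)) := by
    rw [div_le_iff₀ hnpos]
    have h8 : Real.exp (-(L + 1)) * (η / (6 * a)) ≤ Real.exp (-(L + 1)) * n := by gcongr
    refine le_trans ?_ h8
    rw [mul_div_assoc', le_div_iff₀ (by positivity), hc]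
    have h9 := Real.exp_pos (-(L + 1))
    nlinarith
  have h2c : 2 * c ≤ n := by
    have h9 : Real.exp (-(L + 1)) ≤ Real.exp (-1) := Real.exp_le_exp.2 (by linarith)
    have h10 : Real.exp (-1) ≤ 1 / 2 := by
      rw [Real.exp_neg]
      have := Real.add_one_le_exp (1 : ℝ)
      rw [inv_eq_one_div]
      apply one_div_le_one_div_of_le (by norm_num)
      linarith
    have h11 : c / n ≤ 1 / 2 := hcn.trans (h9.trans h10)
    rw [div_le_iff₀ hnpos] at h11
    linarith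
  have hsum := tl_sum c hcpos.le n h2c J
  have hterm := tl_term c hcpos.le n hnpos'
  have hpw : (c / n * Real.exp 1) ^ n ≤ Real.exp (-((Λ + 3) / a)) := by
    have h12 : c / n * Real.exp 1 ≤ Real.exp (-L) := by
      calc c / n * Real.exp 1 ≤ Real.exp (-(L + 1)) * Real.exp 1 := by gcongr
        _ = Real.exp (-L) := by rw [← Real.exp_add]; congr 1; ring
    calc (c / n * Real.exp 1) ^ n ≤ Real.exp (-L) ^ n := by gcongr
      _ = Real.exp (-(L * n)) := by rw [← Real.exp_nat_mul]; congr 1; ring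
      _ ≤ _ := by
        apply Real.exp_le_exp.2
        apply neg_le_neg
        calc (Λ + 3) / a = L * (η / (6 * a)) := by rw [hL]; field_simp
          _ ≤ L * n := by gcongr
  have hK2 : Real.exp (2.4 * K) ≤ Real.exp (2.4 / a) := by
    apply Real.exp_le_exp.2
    have h13 : (K : ℝ) ≤ 1 / a := by
      rw [le_div_iff₀ ha]
      linarith
    have h14 : 2.4 * (K : ℝ) ≤ 2.4 * (1 / a) := by gcongr
    calc 2.4 * (K : ℝ) ≤ 2.4 * (1 / a) := h14
      _ = 2.4 / a := by ring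
  have hfin : ∑ j ∈ range J, (c ^ (2 * (B + j + 1) + 1) /
      ((2 * (B + j + 1) + 1).factorial : ℝ) * Real.exp (2.4 * K)) =
      (∑ j ∈ range J, c ^ (n + 2 * j) / ((n + 2 * j).factorial : ℝ)) * Real.exp (2.4 * K) := by
    rw [sum_mul]
    apply sum_congr rfl
    intro j _
    have : 2 * (B + j + 1) + 1 = n + 2 * j := by omega
    rw [this]
  rw [hfin]
  have h15 : ∑ j ∈ range J, c ^ (n + 2 * j) / ((n + 2 * j).factorial : ℝ) ≤
      2 * Real.exp (-((Λ + 3) / a)) := by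
    refine hsum.trans ?_
    have h16 : (0 : ℝ) ≤ (1 / 2 : ℝ) ^ J := by positivity
    have h17 : 0 ≤ c ^ n / (n.factorial : ℝ) := by positivity
    calc (2 - 2 * (1 / 2 : ℝ) ^ J) * (c ^ n / (n.factorial : ℝ))
        ≤ 2 * (c ^ n / (n.factorial : ℝ)) := by
          apply mul_le_mul_of_nonneg_right _ h17
          linarith
      _ ≤ 2 * Real.exp (-((Λ + 3) / a)) := by
          have := hterm.trans hpw
          linarith
  have h18 : Real.exp (-((Λ + 3) / a)) * Real.exp (2.4 / a) =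
      Real.exp (-(Λ / a)) * Real.exp (-(0.6 / a)) := by
    rw [← Real.exp_add, ← Real.exp_add]
    congr 1
    field_simp
    ring
  have h19 : Real.exp (-(0.6 / a)) ≤ 1 / 4 := by
    have h20 : (1.5 : ℝ) ≤ 0.6 / a := by
      rw [le_div_iff₀ ha]
      linarith
    have h21 : (4 : ℝ) ≤ Real.exp (0.6 / a) := by
      have h22 : Real.exp 1.5 ≤ Real.exp (0.6 / a) := Real.exp_le_exp.2 h20
      have h23 : (4 : ℝ) ≤ Real.exp 1.5 := by
        have h24 := Real.quadratic_le_exp_of_nonneg (show (0 : ℝ) ≤ 1.5 / 3 by norm_num)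
        have h25 : Real.exp 1.5 = Real.exp (1.5 / 3) ^ 3 := by
          rw [← Real.exp_nat_mul]; congr 1; norm_num
        have h26 : (1.6 : ℝ) ≤ Real.exp (1.5 / 3) := by
          refine le_trans ?_ h24
          norm_num
        rw [h25]
        calc (4 : ℝ) ≤ 1.6 ^ 3 := by norm_num
          _ ≤ _ := by gcongr
      linarith
    rw [Real.exp_neg, inv_eq_one_div]
    exact one_div_le_one_div_of_le (by norm_num) h21
  calc (∑ j ∈ range J, c ^ (n + 2 * j) / ((n + 2 * j).factorial : ℝ)) * Real.exp (2.4 * K)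
      ≤ (2 * Real.exp (-((Λ + 3) / a))) * Real.exp (2.4 / a) := by gcongr
    _ = 2 * (Real.exp (-(Λ / a)) * Real.exp (-(0.6 / a))) := by rw [mul_assoc, h18]
    _ ≤ 2 * (Real.exp (-(Λ / a)) * (1 / 4)) := by gcongr
    _ = _ := by ring

/-- explicit version: `B ≥ 10 K` gives the tail `≤ 2^(-B)/2` -/
theorem tail_explicit (K B : ℕ) (hK : 1 ≤ K) (hB : 10 * K ≤ B) (J : ℕ) :
    ∑ j ∈ range J, ((2.22 * (K : ℝ)) ^ (2 * (B + j + 1) + 1) /
        (2 * (B + j + 1) + 1).factorial * Real.exp (2.4 * K)) ≤ (1 / 2 : ℝ) ^ B / 2 := by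
  have hK' : (1 : ℝ) ≤ K := by exact_mod_cast hK
  have hB' : 10 * (K : ℝ) ≤ B := by exact_mod_cast hB
  set n : ℕ := 2 * B + 3 with hn
  have hnr : (n : ℝ) = 2 * (B : ℝ) + 3 := by rw [hn]; push_cast; ring
  have hnpos : (0 : ℝ) < n := by rw [hnr]; linarith
  set c : ℝ := 2.22 * (K : ℝ) with hc
  have hcpos : 0 < c := by positivity
  have hcn : c / n ≤ 0.111 := by
    rw [div_le_iff₀ hnpos, hnr, hc]
    linarith
  have hsum := tl_sum c hcpos.le n (by rw [hnr, hc]; linarith) J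
  have hterm := tl_term c hcpos.le n (by omega)
  have he : Real.exp 1 ≤ 2.7182818286 := Real.exp_one_lt_d9.le
  have hpw : (c / n * Real.exp 1) ^ n ≤ (0.302 : ℝ) ^ n := by
    apply pow_le_pow_left₀ (by positivity)
    have h0 := Real.exp_pos 1
    nlinarith
  have hK2 : Real.exp (2.4 * K) ≤ (1.32 : ℝ) ^ B := by
    have h1 : Real.exp 0.24 ≤ 1.32 := by
      have h2 := Real.one_sub_le_exp_neg (0.24 : ℝ)
      have h3 : Real.exp (-0.24) * Real.exp 0.24 = 1 := by
        rw [← Real.exp_add]; norm_num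
      have h4 := Real.exp_pos (0.24 : ℝ)
      nlinarith
    calc Real.exp (2.4 * K) ≤ Real.exp (B * 0.24) := by
          apply Real.exp_le_exp.2
          linarith
      _ = Real.exp 0.24 ^ B := Real.exp_nat_mul _ _
      _ ≤ _ := by gcongr
  have hfin : ∑ j ∈ range J, (c ^ (2 * (B + j + 1) + 1) /
      ((2 * (B + j + 1) + 1).factorial : ℝ) * Real.exp (2.4 * K)) =
      (∑ j ∈ range J, c ^ (n + 2 * j) / ((n + 2 * j).factorial : ℝ)) * Real.exp (2.4 * K) := by
    rw [sum_mul]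
    apply sum_congr rfl
    intro j _
    have : 2 * (B + j + 1) + 1 = n + 2 * j := by omega
    rw [this]
  rw [hfin]
  have h15 : ∑ j ∈ range J, c ^ (n + 2 * j) / ((n + 2 * j).factorial : ℝ) ≤
      2 * (0.302 : ℝ) ^ n := by
    refine hsum.trans ?_
    have h16 : (0 : ℝ) ≤ (1 / 2 : ℝ) ^ J := by positivity
    have h17 : 0 ≤ c ^ n / (n.factorial : ℝ) := by positivity
    calc (2 - 2 * (1 / 2 : ℝ) ^ J) * (c ^ n / (n.factorial : ℝ))
        ≤ 2 * (c ^ n / (n.factorial : ℝ)) := by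
          apply mul_le_mul_of_nonneg_right _ h17
          linarith
      _ ≤ 2 * (0.302 : ℝ) ^ n := by
          have := hterm.trans hpw
          linarith
  calc (∑ j ∈ range J, c ^ (n + 2 * j) / ((n + 2 * j).factorial : ℝ)) * Real.exp (2.4 * K)
      ≤ (2 * (0.302 : ℝ) ^ n) * (1.32 : ℝ) ^ B := by gcongr
    _ = (2 * 0.302 ^ 3) * (0.302 ^ 2 * 1.32) ^ B := by
        rw [hn, pow_add, pow_mul, mul_pow]; ring
    _ ≤ (1 / 2) * (1 / 2) ^ B := by
        apply mul_le_mul (by norm_num) _ (by positivity) (by norm_num)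
        apply pow_le_pow_left₀ (by positivity)
        norm_num
    _ = _ := by ring

end Pool.Agent.H95.FL
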