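import Pool.Agent.H95.FL.Cb
import Pool.Agent.H95.FL.Lv
import Pool.Agent.H95.FL.Me
import Pool.Agent.H95.FL.Tl
import Pool.Agent.H95.FL.Gr
import Pool.Agent.H95.FL.Bl

/-!
[H95 FL EX]  The fundamental lemma, uniformly in the dimension `K` (level `x^η`, quality `exp(-Λ/a)`, `a ≤ c0/K`),
for all densities `0 ≤ g p ≤ 2K/p` with the same coefficients.

Data: `c0` from `tail η Λ`, `w0` from `block_mass (2K)` (and `≥ 200 K`), for `a ≤ c0/K` the `B` from `tail`, `x0` from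
`growth K B (η/2)`.
For `x ≥ x0`, `J = ⌈log log x⌉₊`, `R = Rj x a P`, `b = bj B`, `UR J R = P` (`Rj_union`, `depth`: `yy x a J < 3 ≤ w0`),
`fu S = if S ⊆ P then up J R b S else 0`, `fl S = if S ⊆ P then lo J R b S else 0` (so `val`, `mean` over subsets of `P` are
those of `up`, `lo`).
* pointwise: module PT.  abs: module AB.
* level: `level_lo` with `y = yy x a`, `Y = x^a`: `≤ x^(a(3B+4.5)) x^a ≤ x^(η/2) ≤ x^η`; `level_up` similar.
* mass: `mass_lo` with `m j = K yy j`, `M = K x^a`: `≤ K^(∑ b_j) x^(a(3B+4.5)) (1 + J K x^a) ≤ K^(2J(B+J)+1) (J+1) x^(a(3B+5.5))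
  ≤ x^(η/2) x^(η/2)`; `mass_up` similar.
* means: `means` (module CB) with `G j = (2.22K)^(b_j+1)/(b_j+1)!` (`mean_fC_le` and `block_mass (2K)` with `u = yy (j+1) ≥ 1`,
  `yy j = u^3`), `vv g ≥ vv (2K/p) ≥ exp(-2.4K)`, `s = exp(-Λ/a)/2`.
-/

namespace Pool.Agent.H95.FL

open Finset

/-- a sandwich of dimension `K` for the primes of `P` with density `g`: level `Y`, quality `d` -/
structure Sand (K : ℕ) (g : ℕ → ℝ) (P : Finset ℕ) (Y d : ℝ) (fl fu : Finset ℕ → ℝ) : Prop where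
  supp_l : ∀ S, ¬ S ⊆ P → fl S = 0
  supp_u : ∀ S, ¬ S ⊆ P → fu S = 0
  abs_l : ∀ S, |fl S| ≤ 1
  abs_u : ∀ S, |fu S| ≤ 1
  empty_l : fl ∅ = 1
  empty_u : fu ∅ = 1
  lev_l : ∀ S, fl S ≠ 0 → ∏ p ∈ S, (p : ℝ) ≤ Y
  lev_u : ∀ S, fu S ≠ 0 → ∏ p ∈ S, (p : ℝ) ≤ Y
  mass_l : ∑ S ∈ P.powerset, |fl S| * (K : ℝ) ^ S.card ≤ Y
  mass_u : ∑ S ∈ P.powerset, |fu S| * (K : ℝ) ^ S.card ≤ Y
  val_l : ∀ D, D ⊆ P → D.Nonempty → val fl D ≤ 0
  val_u : ∀ D, D ⊆ P → 0 ≤ val fu D
  mean_l : (1 - d) * vv g P ≤ mean g P fl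
  mean_l' : mean g P fl ≤ vv g P
  mean_u : mean g P fu ≤ (1 + d) * vv g P
  mean_u' : vv g P ≤ mean g P fu

/-- the structure of the proof: a truncation parameter `B` with small tail gives the sandwich -/
theorem core (K : ℕ) (hK : 1 ≤ K) : ∃ w0 : ℕ, 200 * K ≤ w0 ∧ ∀ (B : ℕ) (η a d : ℝ), 0 < η → 0 < a →
    a ≤ 1 → a * (3 * B + 5.5) ≤ η / 2 → d ≤ 1 →
    (∀ J : ℕ, ∑ j ∈ range J, ((2.22 * (K : ℝ)) ^ (2 * (B + j + 1) + 1) /
      (2 * (B + j + 1) + 1).factorial * Real.exp (2.4 * K)) ≤ d / 2) →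
    ∃ x0 : ℝ, 3 ≤ x0 ∧
      ∀ x : ℝ, x0 ≤ x → ∀ P : Finset ℕ, (∀ p ∈ P, p.Prime ∧ w0 < p ∧ (p : ℝ) ≤ x ^ a) →
      ∃ fl fu : Finset ℕ → ℝ, ∀ g : ℕ → ℝ, (∀ p ∈ P, 0 ≤ g p ∧ g p ≤ 2 * K / p) →
        Sand K g P (x ^ η) d fl fu := by
  classical
  obtain ⟨w1, hw1, hblk⟩ := block_mass (2 * K) (by omega)
  refine ⟨max w1 (200 * K), le_max_right _ _, ?_⟩
  intro B η a d hη ha ha1 hlev hd1 htail
  obtain ⟨x0, hx0, hgrow⟩ := growth K B (η / 2) (by linarith)
  refine ⟨x0, hx0, ?_⟩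
  intro x hx P hP
  have hx3 : 3 ≤ x := hx0.trans hx
  have hx1 : 1 ≤ x := by linarith
  have hxpos : 0 < x := by linarith
  have hK1 : (1 : ℝ) ≤ K := by exact_mod_cast hK
  have hKpos : (0 : ℝ) < K := by linarith
  set J : ℕ := ⌈Real.log (Real.log x)⌉₊ with hJ
  set R : ℕ → Finset ℕ := Rj x a P with hR
  have hDj : Dj J R := Rj_disj x a hx3 ha P J
  have hyJ : yy x a J < 3 := depth x a hx3 ha ha1
  have hU : UR J R = P := by
    apply Rj_union x a hx3 ha P J (max w1 (200 * K))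
    · intro p hp
      exact ⟨(hP p hp).2.1, (hP p hp).2.2⟩
    · have h1 : (3 : ℝ) ≤ ((max w1 (200 * K) : ℕ) : ℝ) := by
        exact_mod_cast hw1.trans (le_max_left _ _)
      linarith
  have hRP : ∀ j, R j ⊆ P := by
    intro j p hp
    rw [hR] at hp
    unfold Rj at hp
    exact (mem_filter.1 hp).1
  have hRm : ∀ j, ∀ p ∈ R j, yy x a (j + 1) < (p : ℝ) ∧ (p : ℝ) ≤ yy x a j := by
    intro j p hp
    rw [hR] at hp
    unfold Rj at hp
    exact (mem_filter.1 hp).2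
  have hblk' : ∀ j, ∑ p ∈ R j, ((2 * K : ℕ) : ℝ) / p ≤ 1.11 * ((2 * K : ℕ) : ℝ) ∧
      Real.exp (-(1.2 * ((2 * K : ℕ) : ℝ))) ≤ vv (fun p => ((2 * K : ℕ) : ℝ) / p) (R j) ∧
      ∀ p ∈ R j, ((2 * K : ℕ) : ℝ) / p ≤ 1 / 100 := by
    intro j
    apply hblk (R j) (yy x a (j + 1)) (yy_one_le x a hx3 ha (j + 1))
    intro p hp
    refine ⟨(hP p (hRP j hp)).1, lt_of_le_of_lt (le_max_left _ _) (hP p (hRP j hp)).2.1,
      (hRm j p hp).1, ?_⟩
    rw [← yy_cube x a hx3 j]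
    exact (hRm j p hp).2
  -- the coefficients
  set fl : Finset ℕ → ℝ := fun S => if S ⊆ P then lo J R (bj B) S else 0 with hfl
  set fu : Finset ℕ → ℝ := fun S => if S ⊆ P then up J R (bj B) S else 0 with hfu
  have hflS : ∀ S, S ⊆ P → fl S = lo J R (bj B) S := fun S hS => if_pos hS
  have hfuS : ∀ S, S ⊆ P → fu S = up J R (bj B) S := fun S hS => if_pos hS
  have hvl : ∀ D, D ⊆ P → val fl D = val (lo J R (bj B)) D := by
    intro D hD
    unfold val
    apply sum_congr rfl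
    intro S hS
    exact hflS S ((mem_powerset.1 hS).trans hD)
  have hvu : ∀ D, D ⊆ P → val fu D = val (up J R (bj B)) D := by
    intro D hD
    unfold val
    apply sum_congr rfl
    intro S hS
    exact hfuS S ((mem_powerset.1 hS).trans hD)
  have hml : ∀ g : ℕ → ℝ, mean g P fl = mean g P (lo J R (bj B)) := by
    intro g
    unfold mean
    apply sum_congr rfl
    intro S hS
    rw [hflS S (mem_powerset.1 hS)]
  have hmu : ∀ g : ℕ → ℝ, mean g P fu = mean g P (up J R (bj B)) := by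
    intro g
    unfold mean
    apply sum_congr rfl
    intro S hS
    rw [hfuS S (mem_powerset.1 hS)]
  -- the level
  have hxa1 : 1 ≤ x ^ a := Real.one_le_rpow hx1 ha.le
  have hprod := prod_yy x a hx3 ha B J
  have hxprod : x ^ (a * (3 * (B : ℝ) + 4.5)) * x ^ a ≤ x ^ (η / 2) := by
    rw [← Real.rpow_add hxpos]
    apply Real.rpow_le_rpow_of_exponent_le hx1
    linarith
  have hηη : x ^ (η / 2) ≤ x ^ η := Real.rpow_le_rpow_of_exponent_le hx1 (by linarith)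
  have hη1 : 1 ≤ x ^ (η / 2) := Real.one_le_rpow hx1 (by linarith)
  have hY2 : (∏ j ∈ range J, yy x a j ^ bj B j) * x ^ a ≤ x ^ (η / 2) :=
    (mul_le_mul_of_nonneg_right hprod (by positivity)).trans hxprod
  have hprodpos : 0 ≤ ∏ j ∈ range J, yy x a j ^ bj B j := by
    apply prod_nonneg
    intro j _
    have := yy_one_le x a hx3 ha j
    positivity
  have hY1 : ∏ j ∈ range J, yy x a j ^ bj B j ≤ x ^ (η / 2) := by
    refine le_trans ?_ hY2
    nlinarith
  have hyy1 : ∀ j < J, 1 ≤ yy x a j := fun j _ => yy_one_le x a hx3 ha j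
  have hyyR : ∀ j < J, ∀ p ∈ R j, (p : ℝ) ≤ yy x a j := fun j _ p hp => (hRm j p hp).2
  -- the mass
  have hm : ∀ j < J, 1 + (K : ℝ) * (R j).card ≤ K * yy x a j := fun j _ =>
    card_Rj x a hx3 ha P (fun p hp => (hP p hp).1) K hK j
  have hM : ∀ j < J, (K : ℝ) * yy x a j ≤ K * x ^ a := fun j _ =>
    mul_le_mul_of_nonneg_left (yy_le x a hx3 ha j) hKpos.le
  have hpr : ∏ j ∈ range J, ((K : ℝ) * yy x a j) ^ bj B j ≤
      (K : ℝ) ^ (2 * J * (B + J)) * ∏ j ∈ range J, yy x a j ^ bj B j := by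
    have h1 : ∏ j ∈ range J, ((K : ℝ) * yy x a j) ^ bj B j =
        (K : ℝ) ^ (∑ j ∈ range J, bj B j) * ∏ j ∈ range J, yy x a j ^ bj B j := by
      simp_rw [mul_pow]
      rw [prod_mul_distrib, prod_pow_eq_pow_sum]
    rw [h1]
    apply mul_le_mul_of_nonneg_right _ hprodpos
    exact pow_le_pow_right₀ hK1 (sum_b B J)
  have hg := hgrow x hx
  rw [← hJ] at hg
  have hmassl : (∏ j ∈ range J, ((K : ℝ) * yy x a j) ^ bj B j) * (1 + J * (K * x ^ a)) ≤
      x ^ η := by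
    have hKx : 1 ≤ (K : ℝ) * x ^ a := by nlinarith
    have h1 : (1 : ℝ) + J * (K * x ^ a) ≤ (K * x ^ a) * (J + 1) := by nlinarith
    have hJ0 : (0 : ℝ) ≤ J := by positivity
    have hpp : 0 ≤ ∏ j ∈ range J, ((K : ℝ) * yy x a j) ^ bj B j := by
      apply prod_nonneg
      intro j _
      have := yy_one_le x a hx3 ha j
      positivity
    calc (∏ j ∈ range J, ((K : ℝ) * yy x a j) ^ bj B j) * (1 + J * (K * x ^ a))
        ≤ ((K : ℝ) ^ (2 * J * (B + J)) * ∏ j ∈ range J, yy x a j ^ bj B j) *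
            ((K * x ^ a) * (J + 1)) := by
          apply mul_le_mul hpr h1 (by positivity) (by positivity)
      _ = ((K : ℝ) ^ (2 * J * (B + J) + 1) * (J + 1)) *
            ((∏ j ∈ range J, yy x a j ^ bj B j) * x ^ a) := by
          rw [pow_succ]; ring
      _ ≤ x ^ (η / 2) * x ^ (η / 2) := by
          apply mul_le_mul hg hY2 (by positivity) (by positivity)
      _ = x ^ η := by
          rw [← Real.rpow_add hxpos]; congr 1; ring
  have hmassu : (∏ j ∈ range J, ((K : ℝ) * yy x a j) ^ bj B j) ≤ x ^ η := by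
    refine le_trans ?_ hmassl
    have hpp : 0 ≤ ∏ j ∈ range J, ((K : ℝ) * yy x a j) ^ bj B j := by
      apply prod_nonneg
      intro j _
      have := yy_one_le x a hx3 ha j
      positivity
    have : 0 ≤ (J : ℝ) * (K * x ^ a) := by positivity
    nlinarith
  refine ⟨fl, fu, ?_⟩
  intro g hg0
  -- means
  have hgR : ∀ j, ∀ p ∈ R j, 0 ≤ g p ∧ g p ≤ ((2 * K : ℕ) : ℝ) / p := by
    intro j p hp
    have h1 := hg0 p (hRP j hp)
    push_cast
    exact h1
  have hsumg : ∀ j, ∑ p ∈ R j, g p ≤ 2.22 * (K : ℝ) := by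
    intro j
    calc ∑ p ∈ R j, g p ≤ ∑ p ∈ R j, ((2 * K : ℕ) : ℝ) / p := sum_le_sum fun p hp => (hgR j p hp).2
      _ ≤ 1.11 * ((2 * K : ℕ) : ℝ) := (hblk' j).1
      _ = 2.22 * (K : ℝ) := by push_cast; ring
  have hsumg0 : ∀ j, 0 ≤ ∑ p ∈ R j, g p := fun j => sum_nonneg fun p hp => (hgR j p hp).1
  have hvvg : ∀ j, Real.exp (-(2.4 * (K : ℝ))) ≤ vv g (R j) := by
    intro j
    have h1 := (hblk' j).2.1
    have h2 : Real.exp (-(2.4 * (K : ℝ))) = Real.exp (-(1.2 * ((2 * K : ℕ) : ℝ))) := by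
      congr 1; push_cast; ring
    rw [h2]
    refine h1.trans ?_
    unfold vv
    apply prod_le_prod
    · intro p hp
      have := (hblk' j).2.2 p hp
      linarith
    · intro p hp
      have := (hgR j p hp).2
      linarith
  have hmeans := means J R (bj B) g
    (fun j => (2.22 * (K : ℝ)) ^ (bj B j + 1) / (bj B j + 1).factorial) (d / 2) hDj
    (fun j => bj_even B j) (fun p hp => (hg0 p (hU ▸ hp)).1)
    (fun p hp => by
      rw [hU] at hp
      obtain ⟨j, hj, hpj⟩ : ∃ j ∈ range J, p ∈ R j := by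
        rw [← hU] at hp
        unfold UR at hp
        exact mem_biUnion.1 hp
      have h1 := (hblk' j).2.2 p hpj
      have h2 := (hgR j p hpj).2
      linarith)
    (fun j _ => by
      refine (mean_fC_le g (R j) (fun p hp => (hgR j p hp).1) (bj B j + 1)).trans ?_
      apply div_le_div_of_nonneg_right _ (by positivity)
      exact pow_le_pow_left₀ (hsumg0 j) (hsumg j) _)
    (by
      refine le_trans (sum_le_sum ?_) (htail J)
      intro j _
      have h1 := hvvg j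
      have h2 : 0 < Real.exp (-(2.4 * (K : ℝ))) := Real.exp_pos _
      have h3 : 0 < vv g (R j) := lt_of_lt_of_le h2 h1
      rw [div_le_iff₀ h3]
      have h4 : Real.exp (2.4 * (K : ℝ)) * Real.exp (-(2.4 * (K : ℝ))) = 1 := by
        rw [← Real.exp_add, add_neg_cancel, Real.exp_zero]
      have h5 : 1 ≤ Real.exp (2.4 * (K : ℝ)) * vv g (R j) := by
        rw [← h4]
        exact mul_le_mul_of_nonneg_left h1 (Real.exp_pos _).le
      have h6 : 0 ≤ (2.22 * (K : ℝ)) ^ (2 * (B + j + 1) + 1) / ((2 * (B + j + 1) + 1).factorial : ℝ) := by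
        positivity
      unfold bj
      rw [mul_assoc]
      exact le_mul_of_one_le_right h6 h5)
    (by linarith)
  rw [hU] at hmeans
  obtain ⟨hme1, hme2, hme3, hme4⟩ := hmeans
  have h2d : 2 * (d / 2) = d := by ring
  rw [h2d] at hme2 hme4
  refine
    { supp_l := fun S hS => if_neg hS
      supp_u := fun S hS => if_neg hS
      abs_l := ?_
      abs_u := ?_
      empty_l := ?_
      empty_u := ?_
      lev_l := ?_
      lev_u := ?_
      mass_l := ?_
      mass_u := ?_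
      val_l := ?_
      val_u := ?_
      mean_l := by rw [hml]; exact hme4
      mean_l' := by rw [hml]; exact hme3
      mean_u := by rw [hmu]; exact hme2
      mean_u' := by rw [hmu]; exact hme1 }
  · intro S
    by_cases hS : S ⊆ P
    · rw [hflS S hS]; exact lo_abs J R (bj B) S
    · simp [hfl, hS]
  · intro S
    by_cases hS : S ⊆ P
    · rw [hfuS S hS]; exact up_abs J R (bj B) S
    · simp [hfu, hS]
  · rw [hflS ∅ (empty_subset _)]
    have := val_lo_empty J R (bj B)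
    simpa [val] using this
  · rw [hfuS ∅ (empty_subset _)]
    have := val_up_empty J R (bj B)
    simpa [val] using this
  · intro S hS0
    by_cases hS : S ⊆ P
    · rw [hflS S hS] at hS0
      refine (level_lo J R (bj B) hDj (yy x a) (x ^ a) hxa1 hyy1 (fun j _ => yy_le x a hx3 ha j)
        hyyR S (by rw [hU]; exact hS) hS0).trans (hY2.trans hηη)
    · exact absurd (if_neg hS) hS0
  · intro S hS0
    by_cases hS : S ⊆ P
    · rw [hfuS S hS] at hS0
      refine (level_up J R (bj B) hDj (yy x a) hyy1 hyyR S (by rw [hU]; exact hS) hS0).trans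
        (hY1.trans hηη)
    · exact absurd (if_neg hS) hS0
  · have h1 := mass_lo J R (bj B) hDj K (fun j => (K : ℝ) * yy x a j) (K * x ^ a) hm hM
    rw [hU] at h1
    refine le_trans (le_of_eq ?_) (h1.trans hmassl)
    apply sum_congr rfl
    intro S hS
    rw [hflS S (mem_powerset.1 hS)]
  · have h1 := mass_up J R (bj B) hDj K (fun j => (K : ℝ) * yy x a j) hm
    rw [hU] at h1
    refine le_trans (le_of_eq ?_) (h1.trans hmassu)
    apply sum_congr rfl
    intro S hS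
    rw [hfuS S (mem_powerset.1 hS)]
  · intro D hD hne
    rw [hvl D hD]
    exact val_lo_nonpos J R (bj B) hDj (fun j => bj_even B j) D (by rw [hU]; exact hD) hne
  · intro D hD
    rw [hvu D hD]
    exact val_up_nonneg J R (bj B) hDj (fun j => bj_even B j) D (by rw [hU]; exact hD)

theorem fundamental (η Λ : ℝ) (hη : 0 < η) (hΛ : 0 < Λ) : ∃ c0 : ℝ, 0 < c0 ∧ c0 ≤ 1 ∧
    ∀ K : ℕ, 1 ≤ K → ∃ w0 : ℕ, 200 * K ≤ w0 ∧ ∀ a : ℝ, 0 < a → a ≤ c0 / K → ∃ x0 : ℝ, 3 ≤ x0 ∧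
      ∀ x : ℝ, x0 ≤ x → ∀ P : Finset ℕ, (∀ p ∈ P, p.Prime ∧ w0 < p ∧ (p : ℝ) ≤ x ^ a) →
      ∃ fl fu : Finset ℕ → ℝ, ∀ g : ℕ → ℝ, (∀ p ∈ P, 0 ≤ g p ∧ g p ≤ 2 * K / p) →
        Sand K g P (x ^ η) (Real.exp (-(Λ / a))) fl fu := by
  obtain ⟨c0, hc0, hc1, htail⟩ := tail η Λ hη hΛ
  refine ⟨c0, hc0, hc1, ?_⟩
  intro K hK
  obtain ⟨w0, hw0, hcore⟩ := core K hK
  refine ⟨w0, hw0, ?_⟩
  intro a ha haK
  obtain ⟨B, hB, hBt⟩ := htail K hK a ha haK
  have hK1 : (1 : ℝ) ≤ K := by exact_mod_cast hK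
  have ha1 : a ≤ 1 := by
    refine haK.trans ((div_le_one (by linarith)).2 (by linarith))
  exact hcore B η a _ hη ha ha1 hB (Real.exp_le_one_iff.2 (by
    have : 0 < Λ / a := by positivity
    linarith)) hBt

end Pool.Agent.H95.FL
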