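import Pool.Agent.H95.FL.Cl

/-!
[H95 FL CN]  Weighted counting in arithmetic progressions with `S ⊆ D_P(N)`.

The base weight `ω` on the finite set `T` is uniformly distributed in all residue classes (`UD T ω X E`: mass `X`, error `E`);
examples: intervals (`ud_Ioc`), and `gw x` on `Win x` with `X = XG x`, `E = 4` (`H21.SH.gw_apx`).
* `cnt_one`: three pairwise coprime moduli `W, q, m`: by CRT the three conditions are one condition modulo `W q m`.
* `cnt`: sum of `cnt_one` over the classes of `A` (module CL), `m = ∏ S`.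
-/

namespace Pool.Agent.H95.FL

open Finset

/-- `ω` on `T` is uniformly distributed in the residue classes: mass `X`, error `E` -/
def UD (T : Finset ℕ) (ω : ℕ → ℝ) (X E : ℝ) : Prop :=
  ∀ q c : ℕ, 0 < q → |∑ N ∈ T.filter (fun N => N % q = c % q), ω N - X / q| ≤ E

theorem UD.nonneg {T : Finset ℕ} {ω : ℕ → ℝ} {X E : ℝ} (h : UD T ω X E) : 0 ≤ E :=
  (abs_nonneg _).trans (h 1 0 one_pos)

theorem ud_Ioc (X1 X2 : ℕ) (hX : X1 ≤ X2) : UD (Ioc X1 X2) (fun _ => 1) ((X2 : ℝ) - X1) 1 := by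
  intro q c hq
  have hq' : (0 : ℚ) < q := by exact_mod_cast hq
  have h0 := Nat.Ioc_filter_modEq_card X1 X2 hq c
  have h1 : (Ioc X1 X2).filter (fun N => N % q = c % q) =
      (Ioc X1 X2).filter (fun N => N ≡ c [MOD q]) := by
    apply filter_congr
    intro N _
    rfl
  rw [sum_const, nsmul_eq_mul, mul_one, h1]
  have h2 : ((X1 : ℚ) - c) / q ≤ ((X2 : ℚ) - c) / q := by
    apply div_le_div_of_nonneg_right _ hq'.le
    have : (X1 : ℚ) ≤ X2 := by exact_mod_cast hX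
    linarith
  have h3 : ⌊((X1 : ℚ) - c) / q⌋ ≤ ⌊((X2 : ℚ) - c) / q⌋ := Int.floor_le_floor h2
  have h4 : (((Ioc X1 X2).filter (fun N => N ≡ c [MOD q])).card : ℤ) =
      ⌊((X2 : ℚ) - c) / q⌋ - ⌊((X1 : ℚ) - c) / q⌋ := by
    rw [h0, max_eq_left (by linarith)]
  have h5 : (((Ioc X1 X2).filter (fun N => N ≡ c [MOD q])).card : ℚ) =
      (⌊((X2 : ℚ) - c) / q⌋ : ℚ) - (⌊((X1 : ℚ) - c) / q⌋ : ℚ) := by
    exact_mod_cast congrArg (fun z : ℤ => (z : ℚ)) h4
  have h6 := Int.floor_le (((X2 : ℚ) - c) / q)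
  have h7 := Int.lt_floor_add_one (((X2 : ℚ) - c) / q)
  have h8 := Int.floor_le (((X1 : ℚ) - c) / q)
  have h9 := Int.lt_floor_add_one (((X1 : ℚ) - c) / q)
  have h10 : |(((Ioc X1 X2).filter (fun N => N ≡ c [MOD q])).card : ℚ) - ((X2 : ℚ) - X1) / q| ≤ 1 := by
    have h11 : ((X2 : ℚ) - X1) / q = ((X2 : ℚ) - c) / q - ((X1 : ℚ) - c) / q := by ring
    rw [h5, h11, abs_le]
    constructor <;> linarith
  have h12 := (Rat.cast_le (K := ℝ)).2 h10
  push_cast at h12
  exact h12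

theorem cnt_one {T : Finset ℕ} {ω : ℕ → ℝ} {X E : ℝ} (hT : UD T ω X E) (W b q r m c : ℕ)
    (hW : 0 < W) (hq : 0 < q) (hm : 0 < m)
    (h1 : Nat.Coprime W q) (h2 : Nat.Coprime W m) (h3 : Nat.Coprime q m) (hc : c < m) :
    |∑ N ∈ T.filter (fun N => N % W = b % W ∧ N % q = r % q ∧ N % m = c), ω N -
      X / (W * q * m)| ≤ E := by
  obtain ⟨z1, hz1, hz2⟩ := Nat.chineseRemainder h1 b r
  have h12 : Nat.Coprime (W * q) m := Nat.Coprime.mul_left h2 h3
  obtain ⟨z2, hz3, hz4⟩ := Nat.chineseRemainder h12 z1 c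
  have hcm : c % m = c := Nat.mod_eq_of_lt hc
  have hset : T.filter (fun N => N % W = b % W ∧ N % q = r % q ∧ N % m = c) =
      T.filter (fun N => N % (W * q * m) = z2 % (W * q * m)) := by
    apply filter_congr
    intro N _
    have hz2W : z2 ≡ b [MOD W] := (hz3.of_mul_right q).trans hz1
    have hz2q : z2 ≡ r [MOD q] := (hz3.of_mul_left W).trans hz2
    constructor
    · rintro ⟨ha, hb, hc'⟩
      have hNW : N ≡ z2 [MOD W] := Nat.ModEq.trans ha hz2W.symm
      have hNq : N ≡ z2 [MOD q] := Nat.ModEq.trans hb hz2q.symm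
      have hNm : N ≡ z2 [MOD m] := by
        have : N ≡ c [MOD m] := by
          unfold Nat.ModEq
          rw [hc', hcm]
        exact this.trans hz4.symm
      have h13 : N ≡ z2 [MOD (W * q)] := (Nat.modEq_and_modEq_iff_modEq_mul h1).1 ⟨hNW, hNq⟩
      exact (Nat.modEq_and_modEq_iff_modEq_mul h12).1 ⟨h13, hNm⟩
    · intro hN
      have h13 := (Nat.modEq_and_modEq_iff_modEq_mul h12).2 hN
      have h14 := (Nat.modEq_and_modEq_iff_modEq_mul h1).2 h13.1
      refine ⟨h14.1.trans hz2W, h14.2.trans hz2q, ?_⟩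
      have : N ≡ c [MOD m] := h13.2.trans hz4
      unfold Nat.ModEq at this
      rw [hcm] at this
      exact this
  rw [hset]
  have h := hT (W * q * m) z2 (by positivity)
  push_cast at h
  exact h

open Classical in
theorem cnt {T : Finset ℕ} {ω : ℕ → ℝ} {X E : ℝ} (hT : UD T ω X E)
    {I : Type} [Fintype I] [DecidableEq I] (h : I → ℕ) (W b q r : ℕ) (S : Finset ℕ)
    (hW : 0 < W) (hq : 0 < q) (h1 : Nat.Coprime W q)
    (hS : ∀ p ∈ S, p.Prime ∧ ¬ p ∣ W ∧ ¬ p ∣ q)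
    (hd : ∀ p ∈ S, ∀ i j, i ≠ j → ¬ (p : ℤ) ∣ (h i : ℤ) - h j) :
    |∑ N ∈ T.filter (fun N => N % W = b % W ∧ N % q = r % q ∧ ∀ p ∈ S, ∃ i, p ∣ N + h i), ω N -
      (Fintype.card I : ℝ) ^ S.card * (X / (W * q * ∏ p ∈ S, (p : ℝ)))| ≤
      (Fintype.card I : ℝ) ^ S.card * E := by
  obtain ⟨A, hA1, hA2, hA3⟩ := classes h S (fun p hp => (hS p hp).1) hd
  set m : ℕ := ∏ p ∈ S, p with hm
  have hm0 : 0 < m := prod_pos fun p hp => (hS p hp).1.pos
  have h2 : Nat.Coprime W m := by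
    rw [hm]
    apply Nat.Coprime.prod_right
    intro p hp
    exact ((Nat.Prime.coprime_iff_not_dvd (hS p hp).1).2 (hS p hp).2.1).symm
  have h3 : Nat.Coprime q m := by
    rw [hm]
    apply Nat.Coprime.prod_right
    intro p hp
    exact ((Nat.Prime.coprime_iff_not_dvd (hS p hp).1).2 (hS p hp).2.2).symm
  have hsum : ∑ N ∈ T.filter (fun N => N % W = b % W ∧ N % q = r % q ∧ ∀ p ∈ S, ∃ i, p ∣ N + h i), ω N
      = ∑ c ∈ A, ∑ N ∈ T.filter (fun N => N % W = b % W ∧ N % q = r % q ∧ N % m = c), ω N := by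
    rw [← sum_biUnion]
    · apply sum_congr _ fun _ _ => rfl
      ext N
      simp only [mem_filter, mem_biUnion]
      constructor
      · rintro ⟨hN, ha, hb, hc⟩
        exact ⟨N % m, (hA3 N).1 hc, hN, ha, hb, rfl⟩
      · rintro ⟨c, hc, hN, ha, hb, hc'⟩
        refine ⟨hN, ha, hb, (hA3 N).2 ?_⟩
        rw [hc']
        exact hc
    · intro c _ c' _ hcc
      rw [Function.onFun, Finset.disjoint_left]
      intro N hN hN'
      rw [mem_filter] at hN hN'
      exact hcc (hN.2.2.2.symm.trans hN'.2.2.2)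
  have hcast : ((m : ℕ) : ℝ) = ∏ p ∈ S, (p : ℝ) := by
    rw [hm]; push_cast; rfl
  have hcard : (Fintype.card I : ℝ) ^ S.card = (A.card : ℝ) := by
    rw [hA2]; push_cast; rfl
  rw [hsum, hcard, ← hcast]
  have hdiff : ∑ c ∈ A, ∑ N ∈ T.filter (fun N => N % W = b % W ∧ N % q = r % q ∧ N % m = c), ω N -
      (A.card : ℝ) * (X / (W * q * m)) =
      ∑ c ∈ A, (∑ N ∈ T.filter (fun N => N % W = b % W ∧ N % q = r % q ∧ N % m = c), ω N -
        X / (W * q * m)) := by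
    rw [sum_sub_distrib, sum_const, nsmul_eq_mul]
  rw [hdiff]
  calc |∑ c ∈ A, (∑ N ∈ T.filter (fun N => N % W = b % W ∧ N % q = r % q ∧ N % m = c), ω N -
        X / (W * q * m))|
      ≤ ∑ c ∈ A, |∑ N ∈ T.filter (fun N => N % W = b % W ∧ N % q = r % q ∧ N % m = c), ω N -
        X / (W * q * m)| := abs_sum_le_sum_abs _ _
    _ ≤ ∑ c ∈ A, E := by
        apply sum_le_sum
        intro c hc
        exact cnt_one hT W b q r m c hW hq hm0 h1 h2 h3 (mem_range.1 (hA1 hc))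
    _ = _ := by rw [sum_const, nsmul_eq_mul]

end Pool.Agent.H95.FL
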