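import Pool.Agent.H95.FL.Sm

/-!
[H95 FL MAIN]  The fundamental lemma with explicit parameters: dimension `K`, truncation `B ≥ 10 K`, level `x^η` with
`a (6 B + 12) ≤ η`, quality `2^(-B)`, for all densities `0 ≤ g p ≤ 2K/p` (in particular `K/p` and `(K-1)/(p-1)`), with the same
coefficients.
-/

namespace Pool.Agent.H95.FL

open Finset

/-- the sandwich `Sand` for all `g` -/
theorem sandwich (K : ℕ) (hK : 1 ≤ K) : ∃ w0 : ℕ, 200 * K ≤ w0 ∧ ∀ (B : ℕ) (η a : ℝ), 10 * K ≤ B →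
    0 < a → a ≤ 1 → a * (6 * B + 12) ≤ η → ∃ x0 : ℝ, 3 ≤ x0 ∧
      ∀ x : ℝ, x0 ≤ x → ∀ P : Finset ℕ, (∀ p ∈ P, p.Prime ∧ w0 < p ∧ (p : ℝ) ≤ x ^ a) →
      ∃ fl fu : Finset ℕ → ℝ, ∀ g : ℕ → ℝ, (∀ p ∈ P, 0 ≤ g p ∧ g p ≤ 2 * K / p) →
        Sand K g P (x ^ η) ((1 / 2 : ℝ) ^ B) fl fu := by
  obtain ⟨w0, hw0, hcore⟩ := core K hK
  refine ⟨w0, hw0, ?_⟩
  intro B η a hB ha ha1 hη
  have hη0 : 0 < η := lt_of_lt_of_le (by positivity) hη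
  exact hcore B η a _ hη0 ha ha1 (by linarith) (pow_le_one₀ (by norm_num) (by norm_num))
    (tail_explicit K B hK hB)

/-- FL: the fundamental lemma in plain form -/
theorem FL (K : ℕ) (hK : 1 ≤ K) : ∃ w0 : ℕ, 200 * K ≤ w0 ∧ ∀ (B : ℕ) (η a : ℝ), 10 * K ≤ B →
    0 < a → a ≤ 1 → a * (6 * B + 12) ≤ η → ∃ x0 : ℝ, 3 ≤ x0 ∧
      ∀ x : ℝ, x0 ≤ x → ∀ P : Finset ℕ, (∀ p ∈ P, p.Prime ∧ w0 < p ∧ (p : ℝ) ≤ x ^ a) →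
      ∃ phim phip : Finset ℕ → ℝ,
        (∀ S, phim S ≠ 0 → S ⊆ P ∧ ((∏ p ∈ S, p : ℕ) : ℝ) ≤ x ^ η) ∧
        (∀ S, phip S ≠ 0 → S ⊆ P ∧ ((∏ p ∈ S, p : ℕ) : ℝ) ≤ x ^ η) ∧
        (∀ S, |phim S| ≤ 1) ∧ (∀ S, |phip S| ≤ 1) ∧
        (∑ S ∈ P.powerset, |phim S| * (K : ℝ) ^ S.card ≤ x ^ η) ∧
        (∑ S ∈ P.powerset, |phip S| * (K : ℝ) ^ S.card ≤ x ^ η) ∧
        (∀ D, D ⊆ P → ∑ S ∈ D.powerset, phim S ≤ (if D = ∅ then 1 else 0) ∧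
          (if D = ∅ then 1 else 0) ≤ ∑ S ∈ D.powerset, phip S ∧ 0 ≤ ∑ S ∈ D.powerset, phip S) ∧
        (∀ g : ℕ → ℝ, (∀ p ∈ P, 0 ≤ g p ∧ g p ≤ 2 * K / p) →
          (1 - (1 / 2 : ℝ) ^ B) * ∏ p ∈ P, (1 - g p) ≤ ∑ S ∈ P.powerset, phim S * ∏ p ∈ S, g p ∧
          ∑ S ∈ P.powerset, phim S * ∏ p ∈ S, g p ≤ ∏ p ∈ P, (1 - g p) ∧
          ∏ p ∈ P, (1 - g p) ≤ ∑ S ∈ P.powerset, phip S * ∏ p ∈ S, g p ∧
          ∑ S ∈ P.powerset, phip S * ∏ p ∈ S, g p ≤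
            (1 + (1 / 2 : ℝ) ^ B) * ∏ p ∈ P, (1 - g p)) := by
  obtain ⟨w0, hw0, h⟩ := sandwich K hK
  refine ⟨w0, hw0, ?_⟩
  intro B η a hB ha ha1 hη
  obtain ⟨x0, hx0, h2⟩ := h B η a hB ha ha1 hη
  refine ⟨x0, hx0, ?_⟩
  intro x hx P hP
  obtain ⟨fl, fu, h3⟩ := h2 x hx P hP
  have hs := h3 (fun _ => 0) (fun p _ => ⟨le_rfl, by positivity⟩)
  refine ⟨fl, fu, ?_, ?_, hs.abs_l, hs.abs_u, hs.mass_l, hs.mass_u, ?_, ?_⟩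
  · intro S hS
    refine ⟨by_contra fun h4 => hS (hs.supp_l S h4), ?_⟩
    push_cast
    exact hs.lev_l S hS
  · intro S hS
    refine ⟨by_contra fun h4 => hS (hs.supp_u S h4), ?_⟩
    push_cast
    exact hs.lev_u S hS
  · intro D hD
    have h0 : ∀ f : Finset ℕ → ℝ, ∑ S ∈ (∅ : Finset ℕ).powerset, f S = f ∅ := by
      intro f; simp
    by_cases hDe : D = ∅
    · subst hDe
      rw [h0, h0, hs.empty_l, hs.empty_u]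
      simp
    · rw [if_neg hDe]
      exact ⟨hs.val_l D hD (nonempty_iff_ne_empty.2 hDe), hs.val_u D hD, hs.val_u D hD⟩
  · intro g hg
    have hs' := h3 g hg
    exact ⟨hs'.mean_l, hs'.mean_l', hs'.mean_u', hs'.mean_u⟩

end Pool.Agent.H95.FL
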