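import Pool.Agent.H95.FL.Def

/-!
[H95 FL MD]  The probabilistic model.

Same proofs as `prb_sup`, `mv_model`, `prb_nonneg`, in `Pool/Agent/H75/AP/ModelA.lean` with `1/p` replaced by `g p`:
`∑_{D ⊆ P, S ⊆ D} prob g P D = ∏_{p ∈ S} g p` (`Finset.prod_add` with `g p` and `if p ∈ S then 0 else 1 - g p`), then exchange
the order of summation.
* `mean_mono`: from `mean_model` and `prob ≥ 0` (`0 ≤ g p ≤ 1`).
* `mean_ind`: `∑_D prob g P D * (if D = ∅ then 1 else 0) = prob g P ∅ = vv g P`.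
-/

namespace Pool.Agent.H95.FL

open Finset

private theorem prob_sup (g : ℕ → ℝ) (P S : Finset ℕ) (hS : S ⊆ P) :
    ∑ D ∈ P.powerset, (if S ⊆ D then prob g P D else 0) = ∏ p ∈ S, g p := by
  have h1 := prod_add g (fun p : ℕ => if p ∈ S then (0 : ℝ) else 1 - g p) P
  have h2 : ∏ p ∈ P, (g p + (if p ∈ S then (0 : ℝ) else 1 - g p)) = ∏ p ∈ S, g p := by
    rw [← prod_sdiff hS]
    have h3 : ∏ p ∈ P \ S, (g p + (if p ∈ S then (0 : ℝ) else 1 - g p)) = 1 := by
      apply prod_eq_one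
      intro p hp
      rw [if_neg (mem_sdiff.mp hp).2]
      ring
    rw [h3, one_mul]
    apply prod_congr rfl
    intro p hp
    rw [if_pos hp, add_zero]
  rw [← h2, h1]
  apply sum_congr rfl
  intro D _
  split_ifs with h
  · unfold prob
    congr 1
    apply prod_congr rfl
    intro p hp
    rw [if_neg fun hpS => (mem_sdiff.mp hp).2 (h hpS)]
  · rw [not_subset] at h
    obtain ⟨p, hpS, hpD⟩ := h
    have h3 : ∏ p ∈ P \ D, (if p ∈ S then (0 : ℝ) else 1 - g p) = 0 := by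
      apply prod_eq_zero (mem_sdiff.mpr ⟨hS hpS, hpD⟩)
      rw [if_pos hpS]
    rw [h3, mul_zero]

theorem mean_model (g : ℕ → ℝ) (P : Finset ℕ) (f : Finset ℕ → ℝ) :
    mean g P f = ∑ D ∈ P.powerset, prob g P D * val f D := by
  have h1 : ∀ D ∈ P.powerset, prob g P D * val f D =
      ∑ S ∈ P.powerset, f S * (if S ⊆ D then prob g P D else 0) := by
    intro D hD
    rw [mem_powerset] at hD
    have h2 : D.powerset = P.powerset.filter (fun S => S ⊆ D) := by
      ext S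
      rw [mem_powerset, mem_filter, mem_powerset]
      exact ⟨fun h => ⟨h.trans hD, h⟩, fun h => h.2⟩
    unfold val
    rw [h2, sum_filter, mul_sum]
    apply sum_congr rfl
    intro S _
    split_ifs <;> ring
  rw [sum_congr rfl h1, sum_comm]
  unfold mean
  apply sum_congr rfl
  intro S hS
  rw [← mul_sum, prob_sup g P S (mem_powerset.mp hS)]

theorem prob_nonneg (g : ℕ → ℝ) (P D : Finset ℕ) (h0 : ∀ p ∈ P, 0 ≤ g p) (h1 : ∀ p ∈ P, g p ≤ 1)
    (hD : D ⊆ P) : 0 ≤ prob g P D := by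
  unfold prob
  refine mul_nonneg (prod_nonneg fun p hp => h0 p (hD hp)) (prod_nonneg fun p hp => ?_)
  have := h1 p (mem_sdiff.1 hp).1
  linarith

theorem mean_mono (g : ℕ → ℝ) (P : Finset ℕ) (h0 : ∀ p ∈ P, 0 ≤ g p) (h1 : ∀ p ∈ P, g p ≤ 1)
    (f f' : Finset ℕ → ℝ) (h : ∀ D, D ⊆ P → val f D ≤ val f' D) : mean g P f ≤ mean g P f' := by
  rw [mean_model, mean_model]
  refine sum_le_sum fun D hD => ?_
  rw [mem_powerset] at hD
  exact mul_le_mul_of_nonneg_left (h D hD) (prob_nonneg g P D h0 h1 hD)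

private theorem sum_ind (g : ℕ → ℝ) (P : Finset ℕ) :
    ∑ D ∈ P.powerset, prob g P D * (if D = ∅ then (1 : ℝ) else 0) = vv g P := by
  rw [sum_eq_single ∅]
  · rw [if_pos rfl, mul_one]
    unfold prob vv
    rw [prod_empty, one_mul, sdiff_empty]
  · intro D _ hD
    rw [if_neg hD, mul_zero]
  · intro h
    exact absurd (empty_mem_powerset P) h

/-- a function with model values `≥ 1[D = ∅]` has mean at least `vv g P` -/
theorem vv_le_mean (g : ℕ → ℝ) (P : Finset ℕ) (h0 : ∀ p ∈ P, 0 ≤ g p) (h1 : ∀ p ∈ P, g p ≤ 1)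
    (f : Finset ℕ → ℝ) (h : ∀ D, D ⊆ P → (if D = ∅ then (1 : ℝ) else 0) ≤ val f D) :
    vv g P ≤ mean g P f := by
  rw [mean_model, ← sum_ind]
  refine sum_le_sum fun D hD => ?_
  rw [mem_powerset] at hD
  exact mul_le_mul_of_nonneg_left (h D hD) (prob_nonneg g P D h0 h1 hD)

theorem mean_le_vv (g : ℕ → ℝ) (P : Finset ℕ) (h0 : ∀ p ∈ P, 0 ≤ g p) (h1 : ∀ p ∈ P, g p ≤ 1)
    (f : Finset ℕ → ℝ) (h : ∀ D, D ⊆ P → val f D ≤ (if D = ∅ then (1 : ℝ) else 0)) :
    mean g P f ≤ vv g P := by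
  rw [mean_model, ← sum_ind]
  refine sum_le_sum fun D hD => ?_
  rw [mem_powerset] at hD
  exact mul_le_mul_of_nonneg_left (h D hD) (prob_nonneg g P D h0 h1 hD)

end Pool.Agent.H95.FL
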