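import Pool.Agent.H95.FL.Def

/-!
[H95 FL MN]  The elementary symmetric bound.

`∑_{S ⊆ T, #S = s} ∏_{p ∈ S} g p ≤ (∑_{p ∈ T} g p)^s / s!` for `g ≥ 0`.  Same induction as `mv_fC_le` in
`Pool/Agent/H75/AP/ModelB.lean` (`e_s(T ∪ {p}) = e_s(T) + g p e_{s-1}(T)` and `(λ+x)^s ≥ λ^s + s x λ^(s-1)`, lemma `bern` there).
-/

namespace Pool.Agent.H95.FL

open Finset

theorem mean_fC_nonneg (g : ℕ → ℝ) (T : Finset ℕ) (h0 : ∀ p ∈ T, 0 ≤ g p) (s : ℕ) :
    0 ≤ mean g T (fC s) := by
  unfold mean
  refine Finset.sum_nonneg fun S hS => mul_nonneg ?_ ?_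
  · unfold fC
    split_ifs
    · exact zero_le_one
    · exact le_refl _
  · exact Finset.prod_nonneg fun p hp => h0 p (mem_powerset.1 hS hp)

private lemma bern (l x : ℝ) (hl : 0 ≤ l) (hx : 0 ≤ x) (s : ℕ) :
    l ^ (s + 1) + (s + 1) * x * l ^ s ≤ (l + x) ^ (s + 1) := by
  induction s with
  | zero => simp
  | succ s ih =>
    have h1 : (l + x) ^ (s + 1 + 1) = (l + x) ^ (s + 1) * (l + x) := pow_succ _ _
    rw [h1]
    have h2 : (l ^ (s + 1) + (s + 1) * x * l ^ s) * (l + x) ≤ (l + x) ^ (s + 1) * (l + x) :=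
      mul_le_mul_of_nonneg_right ih (by positivity)
    refine le_trans ?_ h2
    have h3 : (l ^ (s + 1) + (s + 1) * x * l ^ s) * (l + x) =
        l ^ (s + 1 + 1) + ((s : ℝ) + 1 + 1) * x * l ^ (s + 1) + (s + 1) * x ^ 2 * l ^ s := by
      ring
    rw [h3]
    push_cast
    have : 0 ≤ ((s : ℝ) + 1) * x ^ 2 * l ^ s := by positivity
    linarith

private lemma mean_fC_insert (g : ℕ → ℝ) (T : Finset ℕ) (p : ℕ) (hp : p ∉ T) (s : ℕ) :
    mean g (insert p T) (fC (s + 1)) = mean g T (fC (s + 1)) + g p * mean g T (fC s) := by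
  classical
  unfold mean
  rw [Finset.sum_powerset_insert hp, Finset.mul_sum]
  congr 1
  apply Finset.sum_congr rfl
  intro S hS
  have hpS : p ∉ S := fun h => hp (mem_powerset.1 hS h)
  rw [Finset.prod_insert hpS]
  unfold fC
  rw [Finset.card_insert_of_notMem hpS]
  by_cases h : S.card = s
  · rw [if_pos h, if_pos (by omega)]; ring
  · rw [if_neg h, if_neg (by omega)]; ring

private lemma mean_fC_zero (g : ℕ → ℝ) (T : Finset ℕ) : mean g T (fC 0) = 1 := by
  classical
  unfold mean
  rw [Finset.sum_eq_single_of_mem (∅ : Finset ℕ) (by simp)]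
  · simp [fC]
  · intro S _ hS
    unfold fC
    have : S.card ≠ 0 := by rwa [Ne, Finset.card_eq_zero]
    rw [if_neg this, zero_mul]

theorem mean_fC_le (g : ℕ → ℝ) (T : Finset ℕ) (h0 : ∀ p ∈ T, 0 ≤ g p) (s : ℕ) :
    mean g T (fC s) ≤ (∑ p ∈ T, g p) ^ s / s.factorial := by
  classical
  induction T using Finset.induction_on generalizing s with
  | empty =>
    cases s with
    | zero => rw [mean_fC_zero]; simp
    | succ s =>
      have : mean g ∅ (fC (s + 1)) = 0 := by
        unfold mean fC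
        simp
      rw [this, Finset.sum_empty]
      positivity
  | insert p T hp ih =>
    have h0T : ∀ q ∈ T, 0 ≤ g q := fun q hq => h0 q (Finset.mem_insert_of_mem hq)
    have hx : 0 ≤ g p := h0 p (Finset.mem_insert_self p T)
    cases s with
    | zero => rw [mean_fC_zero]; simp
    | succ s =>
      rw [mean_fC_insert g T p hp s]
      have h1 := ih h0T (s + 1)
      have h2 := ih h0T s
      rw [Finset.sum_insert hp, add_comm (g p)]
      have hl : 0 ≤ ∑ q ∈ T, g q := Finset.sum_nonneg h0T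
      have hb := bern (∑ q ∈ T, g q) (g p) hl hx s
      have hf : (0 : ℝ) < ((s + 1).factorial : ℝ) := by exact_mod_cast Nat.factorial_pos _
      have hf' : (0 : ℝ) < (s.factorial : ℝ) := by exact_mod_cast Nat.factorial_pos _
      calc mean g T (fC (s + 1)) + g p * mean g T (fC s)
          ≤ (∑ q ∈ T, g q) ^ (s + 1) / (s + 1).factorial
              + g p * ((∑ q ∈ T, g q) ^ s / s.factorial) := by
            gcongr
        _ = ((∑ q ∈ T, g q) ^ (s + 1) + (s + 1) * g p * (∑ q ∈ T, g q) ^ s)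
              / (s + 1).factorial := by
            rw [Nat.factorial_succ]
            push_cast
            field_simp
        _ ≤ _ := div_le_div_of_nonneg_right hb hf.le

end Pool.Agent.H95.FL
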