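import Pool.Agent.H95.FL.Pt
import Pool.Agent.H95.FL.Md
import Pool.Agent.H95.FL.Mn

/-!
[H95 FL CB]  The means of the sandwich.

Put `V = vv g (UR J R)`, `u j = mean g (R j) (fU (b j))`, `v j = vv g (R j) > 0`, `γ j = mean g (R j) (fC (b j + 1)) ≥ 0`
(module MN), `γ j ≤ G j`.
* `V = ∏_{j<J} v j` (disjoint blocks) and `u j ≥ v j > 0` (`vv_le_mean` with `val_fU`: the value is `1` at `∅` and `≥ 0`).
* `A := mean g (UR J R) (up J R b) = ∏_j u j` and `mean .. (lo J R b) = A - ∑_i γ i ∏_{j≠i} u j` (`sum_blocks`, linearity), the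
  last sum is `= ∑_i (γ i / u i) A ≤ (∑_i G i / v i) A ≤ s A`.
* `mean lo ≤ V ≤ mean up` by `mean_le_vv`, `vv_le_mean` and module PT (`val_up_nonneg`, `val_up_empty`, `val_lo_empty`,
  `val_lo_nonpos`).
* `A = mean lo + (sum) ≤ V + s A`, so `A ≤ V/(1-s) ≤ (1+2s) V` (`s ≤ 1/2`) and
  `mean lo = A - sum ≥ A (1-s) ≥ V (1-s) ≥ (1-2s) V`.
-/

namespace Pool.Agent.H95.FL

open Finset

theorem means (J : ℕ) (R : ℕ → Finset ℕ) (b : ℕ → ℕ) (g : ℕ → ℝ) (G : ℕ → ℝ) (s : ℝ)
    (hR : Dj J R) (hb : ∀ j, Even (b j)) (h0 : ∀ p ∈ UR J R, 0 ≤ g p)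
    (h1 : ∀ p ∈ UR J R, g p < 1) (hG : ∀ j < J, mean g (R j) (fC (b j + 1)) ≤ G j)
    (hs : ∑ j ∈ range J, G j / vv g (R j) ≤ s) (hs2 : s ≤ 1 / 2) :
    vv g (UR J R) ≤ mean g (UR J R) (up J R b) ∧
    mean g (UR J R) (up J R b) ≤ (1 + 2 * s) * vv g (UR J R) ∧
    mean g (UR J R) (lo J R b) ≤ vv g (UR J R) ∧
    (1 - 2 * s) * vv g (UR J R) ≤ mean g (UR J R) (lo J R b) := by
  classical
  have hsub : ∀ j < J, ∀ p ∈ R j, p ∈ UR J R := fun j hj p hp =>
    mem_biUnion.2 ⟨j, mem_range.2 hj, hp⟩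
  have hv : ∀ j < J, 0 < vv g (R j) := fun j hj =>
    prod_pos fun p hp => by linarith [h1 p (hsub j hj p hp)]
  have hV : vv g (UR J R) = ∏ j ∈ range J, vv g (R j) := by
    unfold vv UR
    rw [prod_biUnion]
    intro i hi j hj hij
    exact hR i (mem_range.1 hi) j (mem_range.1 hj) hij
  have hu : ∀ j < J, vv g (R j) ≤ mean g (R j) (fU (b j)) := by
    intro j hj
    refine vv_le_mean g (R j) (fun p hp => h0 p (hsub j hj p hp))
      (fun p hp => (h1 p (hsub j hj p hp)).le) _ fun D _ => ?_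
    split_ifs with hD
    · subst hD
      rw [val_fU ∅ (b j) (hb j), if_pos rfl]
    · exact val_fU_nonneg D (b j) (hb j)
  have hu0 : ∀ j < J, 0 < mean g (R j) (fU (b j)) := fun j hj => (hv j hj).trans_le (hu j hj)
  have hγ0 : ∀ j < J, 0 ≤ mean g (R j) (fC (b j + 1)) := fun j hj =>
    mean_fC_nonneg g (R j) (fun p hp => h0 p (hsub j hj p hp)) _
  have hA : mean g (UR J R) (up J R b) = ∏ j ∈ range J, mean g (R j) (fU (b j)) :=
    sum_blocks J R hR (fun j => fU (b j)) g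
  have hA0 : 0 < mean g (UR J R) (up J R b) := by
    rw [hA]
    exact prod_pos fun j hj => hu0 j (mem_range.1 hj)
  have hlo : mean g (UR J R) (lo J R b) = mean g (UR J R) (up J R b) -
      ∑ i ∈ range J, mean g (UR J R) (fP J R (Fi b i)) := by
    unfold mean lo
    rw [sum_comm, ← sum_sub_distrib]
    refine sum_congr rfl fun S _ => ?_
    rw [sub_mul, sum_mul]
  have hterm : ∀ i ∈ range J, mean g (UR J R) (fP J R (Fi b i)) ≤
      G i / vv g (R i) * mean g (UR J R) (up J R b) := by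
    intro i hi
    have hi' := mem_range.1 hi
    rw [sum_blocks J R hR (Fi b i) g, hA, ← mul_prod_erase _ _ hi, ← mul_prod_erase _ _ hi]
    have e1 : mean g (R i) (Fi b i i) = mean g (R i) (fC (b i + 1)) := by
      rw [Fi, if_pos rfl]
    have e2 : ∏ j ∈ (range J).erase i, mean g (R j) (Fi b i j) =
        ∏ j ∈ (range J).erase i, mean g (R j) (fU (b j)) := by
      refine prod_congr rfl fun j hj => ?_
      rw [Fi, if_neg (ne_of_mem_erase hj)]
    rw [e1, e2, ← mul_assoc]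
    refine mul_le_mul_of_nonneg_right ?_ (prod_nonneg fun j hj =>
      (hu0 j (mem_range.1 (mem_of_mem_erase hj))).le)
    have h2 := hG i hi'
    have hG0 : 0 ≤ G i := (hγ0 i hi').trans h2
    calc mean g (R i) (fC (b i + 1)) ≤ G i := h2
      _ = G i / vv g (R i) * vv g (R i) := by
          rw [div_mul_cancel₀ _ (hv i hi').ne']
      _ ≤ G i / vv g (R i) * mean g (R i) (fU (b i)) :=
          mul_le_mul_of_nonneg_left (hu i hi') (div_nonneg hG0 (hv i hi').le)
  have hterm0 : ∀ i ∈ range J, 0 ≤ mean g (UR J R) (fP J R (Fi b i)) := by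
    intro i hi
    have hi' := mem_range.1 hi
    rw [sum_blocks J R hR (Fi b i) g]
    refine prod_nonneg fun j hj => ?_
    have hj' := mem_range.1 hj
    rw [Fi]
    split_ifs with h
    · exact hγ0 j hj'
    · exact (hu0 j hj').le
  have hsum : ∑ i ∈ range J, mean g (UR J R) (fP J R (Fi b i)) ≤
      s * mean g (UR J R) (up J R b) := by
    refine (sum_le_sum hterm).trans ?_
    rw [← sum_mul]
    exact mul_le_mul_of_nonneg_right hs hA0.le
  have hsum0 : 0 ≤ ∑ i ∈ range J, mean g (UR J R) (fP J R (Fi b i)) := sum_nonneg hterm0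
  have hs0 : 0 ≤ s := by
    by_contra hc
    push Not at hc
    nlinarith
  have hvup : vv g (UR J R) ≤ mean g (UR J R) (up J R b) := by
    rw [hV, hA]
    exact prod_le_prod (fun j hj => (hv j (mem_range.1 hj)).le) fun j hj => hu j (mem_range.1 hj)
  have hlov : mean g (UR J R) (lo J R b) ≤ vv g (UR J R) := by
    refine mean_le_vv g (UR J R) h0 (fun p hp => (h1 p hp).le) _ fun D hD => ?_
    split_ifs with h
    · subst h
      exact (val_lo_empty J R b).le
    · exact val_lo_nonpos J R b hR hb D hD (nonempty_iff_ne_empty.2 h)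
  have hVpos : 0 < vv g (UR J R) := by
    rw [hV]
    exact prod_pos fun j hj => hv j (mem_range.1 hj)
  refine ⟨hvup, ?_, hlov, ?_⟩
  · have h3 : mean g (UR J R) (up J R b) * (1 - s) ≤ vv g (UR J R) := by
      nlinarith
    have h4 : mean g (UR J R) (up J R b) ≤ 2 * vv g (UR J R) := by nlinarith
    nlinarith
  · nlinarith

end Pool.Agent.H95.FL
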