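import Pool.Agent.H95.FL.Def

/-!
[H95 FL CL]  The residue classes of `S ⊆ D_P(N)`.

For a finite set `S` of primes none of which divides a difference `h i - h j` (`i ≠ j`), the condition
'every `p ∈ S` divides some `N + h i`' says that `N mod ∏ S` lies in a set of exactly `(card I)^#S` classes.
Induction on `S` (insert `p`): `q = ∏ S` is coprime to `p`; by CRT the pairs (class mod `q`, class mod `p`) correspond to the
classes mod `p q`, and modulo `p` there are exactly `card I` good classes (`-h i mod p`, pairwise distinct since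
`p ∤ h i - h j`).  Alternatively define `A = (range (∏ S)).filter (fun c => ∀ p ∈ S, ∃ i, p ∣ c + h i)` (then the first claim is
clear, `p ∣ ∏ S`) and compute its cardinality by `Nat.chineseRemainder` / `ZMod.chineseRemainder` induction.
-/

namespace Pool.Agent.H95.FL

open Finset

/-- the primes of `P` which divide some `N + h i` -/
noncomputable def DP {I : Type} (h : I → ℕ) (P : Finset ℕ) (N : ℕ) : Finset ℕ :=
  open Classical in P.filter (fun p => ∃ i, p ∣ N + h i)

private theorem dvd_mod {p q : ℕ} (N t : ℕ) (hpq : p ∣ q) : p ∣ N + t ↔ p ∣ N % q + t := by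
  have h1 : N % q + t ≡ N + t [MOD p] := ((Nat.mod_modEq N q).of_dvd hpq).add_right t
  exact (Nat.ModEq.dvd_iff h1 dvd_rfl).symm

open Classical in
private theorem card_one {I : Type} [Fintype I] (h : I → ℕ) (p : ℕ) (hp : p.Prime)
    (hd : ∀ i j, i ≠ j → ¬ (p : ℤ) ∣ (h i : ℤ) - h j) :
    ((range p).filter (fun c => ∃ i, p ∣ c + h i)).card = Fintype.card I := by
  obtain ⟨g, hg⟩ : ∃ g : I → ℕ, ∀ i, g i < p ∧ p ∣ g i + h i := by
    refine ⟨fun i => (p - h i % p) % p, fun i => ⟨Nat.mod_lt _ hp.pos, ?_⟩⟩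
    rw [← dvd_mod (p - h i % p) (h i) dvd_rfl]
    have h1 : h i % p ≤ p := (Nat.mod_lt _ hp.pos).le
    have h2 : p - h i % p + h i = p + (h i - h i % p) := by
      have h3 := Nat.mod_le (h i) p
      omega
    rw [h2]
    exact Nat.dvd_add dvd_rfl (Nat.dvd_sub_mod (h i))
  have hinj : Function.Injective g := by
    intro i j hij
    by_contra hne
    refine hd i j hne ?_
    have h1 : (p : ℤ) ∣ ((g i + h i : ℕ) : ℤ) := by exact_mod_cast (hg i).2
    have h2 : (p : ℤ) ∣ ((g j + h j : ℕ) : ℤ) := by exact_mod_cast (hg j).2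
    have h3 := dvd_sub h1 h2
    rw [hij] at h3
    push_cast at h3
    have h4 : ((g j : ℤ) + h i - (g j + h j)) = (h i : ℤ) - h j := by ring
    rwa [h4] at h3
  have himg : (range p).filter (fun c => ∃ i, p ∣ c + h i) = Finset.univ.image g := by
    ext c
    rw [Finset.mem_filter, Finset.mem_range, Finset.mem_image]
    constructor
    · rintro ⟨hc, i, hi⟩
      refine ⟨i, Finset.mem_univ _, ?_⟩
      have h1 : g i + h i ≡ c + h i [MOD p] :=
        ((Nat.modEq_zero_iff_dvd.2 (hg i).2)).trans (Nat.modEq_zero_iff_dvd.2 hi).symm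
      have h2 : g i ≡ c [MOD p] := Nat.ModEq.add_right_cancel' _ h1
      exact h2.eq_of_lt_of_lt (hg i).1 hc
    · rintro ⟨i, _, rfl⟩
      exact ⟨(hg i).1, i, (hg i).2⟩
  rw [himg, Finset.card_image_of_injective _ hinj, Finset.card_univ]

open Classical in
private theorem card_all {I : Type} [Fintype I] (h : I → ℕ) (S : Finset ℕ)
    (hS : ∀ p ∈ S, p.Prime) (hd : ∀ p ∈ S, ∀ i j, i ≠ j → ¬ (p : ℤ) ∣ (h i : ℤ) - h j) :
    ((range (∏ p ∈ S, p)).filter (fun c => ∀ p ∈ S, ∃ i, p ∣ c + h i)).card =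
      Fintype.card I ^ S.card := by
  induction S using Finset.induction_on with
  | empty => simp
  | insert p S hpS ih =>
    have hS' : ∀ r ∈ S, r.Prime := fun r hr => hS r (Finset.mem_insert_of_mem hr)
    have ih' := ih hS' (fun r hr => hd r (Finset.mem_insert_of_mem hr))
    have hp : p.Prime := hS p (Finset.mem_insert_self _ _)
    have hone := card_one h p hp (hd p (Finset.mem_insert_self _ _))
    obtain ⟨q, hq⟩ : ∃ q, q = ∏ r ∈ S, r := ⟨_, rfl⟩
    have hq0 : 0 < q := hq ▸ Finset.prod_pos fun r hr => (hS' r hr).pos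
    have hco : Nat.Coprime q p := by
      rw [hq]
      refine Nat.Coprime.prod_left fun r hr => ?_
      rw [Nat.coprime_primes (hS' r hr) hp]
      rintro rfl
      exact hpS hr
    have hrq : ∀ r ∈ S, r ∣ q := fun r hr => hq ▸ Finset.dvd_prod_of_mem _ hr
    rw [← hq] at ih'
    rw [Finset.prod_insert hpS, Finset.card_insert_of_notMem hpS, ← hq, pow_succ, ← ih', ← hone,
      ← Finset.card_product]
    refine Finset.card_bij' (fun c _ => (c % q, c % p))
      (fun u _ => (Nat.chineseRemainder hco u.1 u.2 : ℕ)) ?_ ?_ ?_ ?_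
    · intro c hc
      rw [Finset.mem_filter, Finset.mem_range] at hc
      rw [Finset.mem_product, Finset.mem_filter, Finset.mem_filter, Finset.mem_range,
        Finset.mem_range]
      refine ⟨⟨Nat.mod_lt _ hq0, fun r hr => ?_⟩, Nat.mod_lt _ hp.pos, ?_⟩
      · obtain ⟨i, hi⟩ := hc.2 r (Finset.mem_insert_of_mem hr)
        exact ⟨i, (dvd_mod c (h i) (hrq r hr)).1 hi⟩
      · obtain ⟨i, hi⟩ := hc.2 p (Finset.mem_insert_self _ _)
        exact ⟨i, (dvd_mod c (h i) dvd_rfl).1 hi⟩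
    · intro u hu
      rw [Finset.mem_product, Finset.mem_filter, Finset.mem_filter, Finset.mem_range,
        Finset.mem_range] at hu
      obtain ⟨⟨hu1, hu2⟩, hu3, hu4⟩ := hu
      have hlt := Nat.chineseRemainder_lt_mul hco u.1 u.2 hq0.ne' hp.pos.ne'
      obtain ⟨hk1, hk2⟩ := (Nat.chineseRemainder hco u.1 u.2).2
      rw [Finset.mem_filter, Finset.mem_range]
      refine ⟨by rw [mul_comm p q]; exact hlt, fun r hr => ?_⟩
      rcases Finset.mem_insert.1 hr with rfl | hr
      · obtain ⟨i, hi⟩ := hu4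
        exact ⟨i, (Nat.ModEq.dvd_iff (hk2.add_right (h i)) dvd_rfl).2 hi⟩
      · obtain ⟨i, hi⟩ := hu2 r hr
        exact ⟨i, (Nat.ModEq.dvd_iff ((hk1.of_dvd (hrq r hr)).add_right (h i)) dvd_rfl).2 hi⟩
    · intro c hc
      rw [Finset.mem_filter, Finset.mem_range] at hc
      have hlt := Nat.chineseRemainder_lt_mul hco (c % q) (c % p) hq0.ne' hp.pos.ne'
      have h1 := Nat.chineseRemainder_modEq_unique hco (Nat.mod_modEq c q).symm
        (Nat.mod_modEq c p).symm
      exact (h1.eq_of_lt_of_lt (by rw [mul_comm q p]; exact hc.1) hlt).symm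
    · intro u hu
      rw [Finset.mem_product, Finset.mem_filter, Finset.mem_filter, Finset.mem_range,
        Finset.mem_range] at hu
      obtain ⟨⟨hu1, _⟩, hu3, _⟩ := hu
      obtain ⟨hk1, hk2⟩ := (Nat.chineseRemainder hco u.1 u.2).2
      refine Prod.ext ?_ ?_
      · change (Nat.chineseRemainder hco u.1 u.2 : ℕ) % q = u.1
        rw [hk1, Nat.mod_eq_of_lt hu1]
      · change (Nat.chineseRemainder hco u.1 u.2 : ℕ) % p = u.2
        rw [hk2, Nat.mod_eq_of_lt hu3]

theorem classes {I : Type} [Fintype I] [DecidableEq I] (h : I → ℕ) (S : Finset ℕ)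
    (hS : ∀ p ∈ S, p.Prime) (hd : ∀ p ∈ S, ∀ i j, i ≠ j → ¬ (p : ℤ) ∣ (h i : ℤ) - h j) :
    ∃ A : Finset ℕ, A ⊆ range (∏ p ∈ S, p) ∧ A.card = Fintype.card I ^ S.card ∧
      ∀ N : ℕ, (∀ p ∈ S, ∃ i, p ∣ N + h i) ↔ N % (∏ p ∈ S, p) ∈ A := by
  classical
  refine ⟨(range (∏ p ∈ S, p)).filter (fun c => ∀ p ∈ S, ∃ i, p ∣ c + h i),
    Finset.filter_subset _ _, card_all h S hS hd, fun N => ?_⟩
  have hq0 : 0 < ∏ p ∈ S, p := Finset.prod_pos fun r hr => (hS r hr).pos
  rw [Finset.mem_filter, Finset.mem_range]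
  constructor
  · intro h1
    refine ⟨Nat.mod_lt _ hq0, fun p hp => ?_⟩
    obtain ⟨i, hi⟩ := h1 p hp
    exact ⟨i, (dvd_mod N (h i) (Finset.dvd_prod_of_mem _ hp)).1 hi⟩
  · rintro ⟨_, h1⟩ p hp
    obtain ⟨i, hi⟩ := h1 p hp
    exact ⟨i, (dvd_mod N (h i) (Finset.dvd_prod_of_mem _ hp)).2 hi⟩

end Pool.Agent.H95.FL
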