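import Mathlib

/-!
[H95 FL] The fundamental lemma of the sieve (Brun-Hooley, dimension `K`): definitions.
Text: `/team-store/h95_sandwich.md` (MP_8923e7_nt, ChenTuples).
-/

namespace Pool.Agent.H95.FL

open Finset

/-- value at the finite set `D` of the coefficients `f` -/
noncomputable def val (f : Finset ℕ → ℝ) (D : Finset ℕ) : ℝ := ∑ S ∈ D.powerset, f S

/-- mean value over a random subset of `P` (independent events of probability `g p`) -/
noncomputable def mean (g : ℕ → ℝ) (P : Finset ℕ) (f : Finset ℕ → ℝ) : ℝ :=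
  ∑ S ∈ P.powerset, f S * ∏ p ∈ S, g p

/-- truncated Moebius coefficients of one block -/
noncomputable def fU (b : ℕ) (S : Finset ℕ) : ℝ := if S.card ≤ b then (-1) ^ S.card else 0

/-- indicator of the sets with exactly `s` elements -/
noncomputable def fC (s : ℕ) (S : Finset ℕ) : ℝ := if S.card = s then 1 else 0

/-- coefficients of a product over the blocks `R j`, `j < J` -/
noncomputable def fP (J : ℕ) (R : ℕ → Finset ℕ) (F : ℕ → Finset ℕ → ℝ) (S : Finset ℕ) : ℝ :=
  ∏ j ∈ range J, F j (S ∩ R j)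

/-- the block functions of the `i`-th correction term -/
noncomputable def Fi (b : ℕ → ℕ) (i j : ℕ) : Finset ℕ → ℝ := if j = i then fC (b j + 1) else fU (b j)

/-- upper coefficients -/
noncomputable def up (J : ℕ) (R : ℕ → Finset ℕ) (b : ℕ → ℕ) (S : Finset ℕ) : ℝ :=
  fP J R (fun j => fU (b j)) S

/-- lower coefficients -/
noncomputable def lo (J : ℕ) (R : ℕ → Finset ℕ) (b : ℕ → ℕ) (S : Finset ℕ) : ℝ :=
  up J R b S - ∑ i ∈ range J, fP J R (Fi b i) S

/-- the union of the blocks -/
def UR (J : ℕ) (R : ℕ → Finset ℕ) : Finset ℕ := (range J).biUnion R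

/-- pairwise disjoint blocks -/
def Dj (J : ℕ) (R : ℕ → Finset ℕ) : Prop := ∀ i < J, ∀ j < J, i ≠ j → Disjoint (R i) (R j)

/-- probability of the set `D` -/
noncomputable def prob (g : ℕ → ℝ) (P D : Finset ℕ) : ℝ := (∏ p ∈ D, g p) * ∏ p ∈ P \ D, (1 - g p)

/-- probability of the empty set -/
noncomputable def vv (g : ℕ → ℝ) (P : Finset ℕ) : ℝ := ∏ p ∈ P, (1 - g p)

end Pool.Agent.H95.FL
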