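import Pool.Agent.H95.FL.Def

/-!
[H95 FL ONE]  The values of one block.

Copy of `model_fU`, `model_fC` in `Pool/Agent/H75/AP/ModelA.lean` (their `fU`, `fC` are the same functions; the proofs are
`ev_fU`, `ev_fC` in `H75/AP/Alt.lean`: `∑_{c ≤ b} (-1)^c C(m,c) = (-1)^b C(m-1,b)` for `m ≥ 1`).
One may import `Pool.Agent.H75.AP.ModelA` and use `Pool.Agent.H75.AP.fU = fU` (`funext`, `rfl`).
* `val_diff`: for `m = #D ≥ 1`: `C(m-1,b) - C(m,b+1) = - C(m-1,b+1) ≤ 0` (Pascal).
-/

namespace Pool.Agent.H95.FL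

open Finset

private theorem one_key (b m : ℕ) :
    ∑ k ∈ range (m + 1), m.choose k • (if k ≤ b then (-1 : ℝ) ^ k else 0) =
      ∑ k ∈ range (b + 1), (-1 : ℝ) ^ k * (m.choose k : ℝ) := by
  have h1 : ∑ k ∈ range (m + 1), m.choose k • (if k ≤ b then (-1 : ℝ) ^ k else 0) =
      ∑ k ∈ range (m + b + 1), m.choose k • (if k ≤ b then (-1 : ℝ) ^ k else 0) := by
    apply sum_subset
    · intro k hk
      rw [mem_range] at hk ⊢
      omega
    · intro k _ hk2
      rw [mem_range, not_lt] at hk2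
      rw [Nat.choose_eq_zero_of_lt (by omega), zero_smul]
  have h2 : ∑ k ∈ range (b + 1), (-1 : ℝ) ^ k * (m.choose k : ℝ) =
      ∑ k ∈ range (b + 1), m.choose k • (if k ≤ b then (-1 : ℝ) ^ k else 0) := by
    apply sum_congr rfl
    intro k hk
    rw [mem_range] at hk
    rw [if_pos (by omega), nsmul_eq_mul, mul_comm]
  rw [h1, h2]
  symm
  apply sum_subset
  · intro k hk
    rw [mem_range] at hk ⊢
    omega
  · intro k _ hk2
    rw [mem_range, not_lt] at hk2
    rw [if_neg (by omega), smul_zero]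

theorem val_fU (D : Finset ℕ) (b : ℕ) (hb : Even b) : val (fU b) D =
    if D = ∅ then 1 else (((D.card - 1).choose b : ℕ) : ℝ) := by
  have hs : val (fU b) D = ∑ k ∈ range (b + 1), (-1 : ℝ) ^ k * ((D.card.choose k : ℕ) : ℝ) := by
    rw [← one_key]
    exact sum_powerset_apply_card (fun k => if k ≤ b then (-1 : ℝ) ^ k else 0)
  rw [hs]
  rcases hm : D.card with _ | m
  · rw [if_pos (card_eq_zero.1 hm), sum_range_succ']
    simp
  · rw [if_neg (fun h => by rw [h, card_empty] at hm; omega), Nat.add_sub_cancel]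
    have h := Int.alternating_sum_range_choose_eq_choose (n := m) (m := b)
    have h' : ((∑ k ∈ range (b + 1), ((-1) ^ k * ((m + 1).choose k : ℤ)) : ℤ) : ℝ) =
        (((-1) ^ b * (m.choose b : ℤ) : ℤ) : ℝ) := by rw [h]
    push_cast at h'
    rw [h', hb.neg_one_pow, one_mul]

theorem val_fC (s : ℕ) (D : Finset ℕ) : val (fC s) D = ((D.card.choose s : ℕ) : ℝ) := by
  have h : val (fC s) D = ∑ k ∈ range (D.card + 1),
      D.card.choose k • (if k = s then (1 : ℝ) else 0) :=
    sum_powerset_apply_card (fun k => if k = s then (1 : ℝ) else 0)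
  rw [h]
  simp only [nsmul_eq_mul, mul_ite, mul_one, mul_zero]
  rw [sum_ite_eq']
  split_ifs with hs
  · rfl
  · rw [mem_range, not_lt] at hs
    rw [Nat.choose_eq_zero_of_lt (by omega), Nat.cast_zero]

theorem val_fU_nonneg (D : Finset ℕ) (b : ℕ) (hb : Even b) : 0 ≤ val (fU b) D := by
  rw [val_fU D b hb]
  split_ifs
  · norm_num
  · positivity

theorem val_fC_nonneg (s : ℕ) (D : Finset ℕ) : 0 ≤ val (fC s) D := by
  rw [val_fC]
  positivity

theorem val_diff (D : Finset ℕ) (b : ℕ) (hb : Even b) (hD : D.Nonempty) :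
    val (fU b) D ≤ val (fC (b + 1)) D := by
  rw [val_fU D b hb, val_fC, if_neg hD.ne_empty]
  have h1 : 0 < D.card := card_pos.2 hD
  obtain ⟨m, hm⟩ : ∃ m, D.card = m + 1 := ⟨D.card - 1, by omega⟩
  rw [hm, Nat.add_sub_cancel, Nat.choose_succ_succ]
  push_cast
  have : (0 : ℝ) ≤ ((m.choose (b + 1) : ℕ) : ℝ) := by positivity
  linarith

end Pool.Agent.H95.FL
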