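import Pool.Agent.H95.FL.Pu
import Pool.Agent.H95.FL.One

/-!
[H95 FL PT]  The pointwise inequalities of the sandwich.

Write `U j = val (fU (b j)) (D ∩ R j) ≥ 0`, `C j = val (fC (b j + 1)) (D ∩ R j) ≥ 0` (module ONE).  By `val_blocks` (module PU;
`val` is linear) `val (up J R b) D = ∏_j U j` and `val (lo J R b) D = ∏_j U j - ∑_i C i ∏_{j ≠ i} U j`.
* `val_up_nonneg`: clear.  `val_up_empty`, `val_lo_empty`: `D ∩ R j = ∅`, `U j = 1`, `C j = C(0, b j + 1) = 0`.
* `val_lo_nonpos`: `D ≠ ∅`, `D ⊆ UR J R`, so some `i < J` has `D ∩ R i` nonempty; all terms of the sum are `≥ 0`, so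
  `val lo ≤ ∏_j U j - C i ∏_{j ≠ i} U j = (U i - C i) ∏_{j ≠ i} U j ≤ 0` by `val_diff`.
-/

namespace Pool.Agent.H95.FL

open Finset

variable (J : ℕ) (R : ℕ → Finset ℕ) (b : ℕ → ℕ)

private theorem pt_empty (f : Finset ℕ → ℝ) : val f ∅ = f ∅ := by
  unfold val
  rw [Finset.powerset_empty, Finset.sum_singleton]

private theorem pt_up (D : Finset ℕ) :
    val (up J R b) D = val (fP J R (fun j => fU (b j))) D := rfl

private theorem pt_lo (D : Finset ℕ) : val (lo J R b) D =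
    val (fP J R (fun j => fU (b j))) D - ∑ i ∈ range J, val (fP J R (Fi b i)) D := by
  unfold val
  rw [Finset.sum_comm, ← Finset.sum_sub_distrib]
  rfl

private theorem pt_Fi (i j : ℕ) (D : Finset ℕ) (hb : ∀ j, Even (b j)) :
    0 ≤ val (Fi b i j) D := by
  unfold Fi
  split_ifs
  · exact val_fC_nonneg _ _
  · exact val_fU_nonneg _ _ (hb j)

theorem val_up_nonneg (hR : Dj J R) (hb : ∀ j, Even (b j)) (D : Finset ℕ) (hD : D ⊆ UR J R) :
    0 ≤ val (up J R b) D := by
  rw [pt_up, val_blocks J R hR _ D hD]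
  exact Finset.prod_nonneg fun j _ => val_fU_nonneg _ _ (hb j)

theorem val_up_empty : val (up J R b) ∅ = 1 := by
  rw [pt_empty]
  unfold up fP
  refine Finset.prod_eq_one fun j _ => ?_
  unfold fU
  simp

theorem val_lo_empty : val (lo J R b) ∅ = 1 := by
  rw [pt_empty]
  unfold lo
  have h1 : up J R b ∅ = 1 := by
    have := val_up_empty J R b
    rwa [pt_empty] at this
  have h2 : ∑ i ∈ range J, fP J R (Fi b i) ∅ = 0 := by
    refine Finset.sum_eq_zero fun i hi => ?_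
    unfold fP
    refine Finset.prod_eq_zero hi ?_
    unfold Fi fC
    simp
  rw [h1, h2, sub_zero]

theorem val_lo_nonpos (hR : Dj J R) (hb : ∀ j, Even (b j)) (D : Finset ℕ) (hD : D ⊆ UR J R)
    (hne : D.Nonempty) : val (lo J R b) D ≤ 0 := by
  obtain ⟨p, hp⟩ := hne
  obtain ⟨i, hi, hpi⟩ := Finset.mem_biUnion.1 (hD hp)
  have hne' : (D ∩ R i).Nonempty := ⟨p, Finset.mem_inter.2 ⟨hp, hpi⟩⟩
  rw [pt_lo, val_blocks J R hR _ D hD]
  have h1 : val (fP J R (Fi b i)) D ≤ ∑ i ∈ range J, val (fP J R (Fi b i)) D := by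
    refine Finset.single_le_sum (f := fun i => val (fP J R (Fi b i)) D) (fun j _ => ?_) hi
    show 0 ≤ val (fP J R (Fi b j)) D
    rw [val_blocks J R hR _ D hD]
    exact Finset.prod_nonneg fun k _ => pt_Fi b j k _ hb
  rw [val_blocks J R hR _ D hD, ← Finset.mul_prod_erase _ _ hi] at h1
  rw [← Finset.mul_prod_erase _ _ hi]
  have h2 : ∏ x ∈ (range J).erase i, val (Fi b i x) (D ∩ R x) =
      ∏ x ∈ (range J).erase i, val (fU (b x)) (D ∩ R x) := by
    refine Finset.prod_congr rfl fun x hx => ?_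
    unfold Fi
    rw [if_neg (Finset.ne_of_mem_erase hx)]
  have h3 : val (Fi b i i) (D ∩ R i) = val (fC (b i + 1)) (D ∩ R i) := by
    unfold Fi
    rw [if_pos rfl]
  rw [h2, h3] at h1
  have h4 : 0 ≤ ∏ x ∈ (range J).erase i, val (fU (b x)) (D ∩ R x) :=
    Finset.prod_nonneg fun k _ => val_fU_nonneg _ _ (hb k)
  have h5 := mul_le_mul_of_nonneg_right (val_diff (D ∩ R i) (b i) (hb i) hne') h4
  linarith

end Pool.Agent.H95.FL
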