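import Pool.Agent.H95.FL.Def

/-!
[H95 FL PU]  Products over disjoint blocks.

* `sum_union`: the map `(S, T) ↦ S ∪ T` from `A.powerset ×ˢ B.powerset` to `(A ∪ B).powerset` is a bijection with
  inverse `U ↦ (U ∩ A, U ∩ B)` (`A`, `B` disjoint).
* `sum_blocks`: induction on `J`.  `UR (J+1) R = UR J R ∪ R J` (disjoint).  By `sum_union` the left side for `J+1` is
  `∑_{S ⊆ UR J R} ∑_{T ⊆ R J} fP (J+1) R F (S ∪ T) * ∏_{S ∪ T} g`; for these sets
  `(S ∪ T) ∩ R j = S ∩ R j` for `j < J` (`T ⊆ R J` is disjoint from `R j`), `(S ∪ T) ∩ R J = T`, and `S`, `T` are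
  disjoint, so the term is `(fP J R F S * ∏_S g) * (F J T * ∏_T g)`.
* `val_blocks`: the same with `g = 1` and the blocks `D ∩ R j`: for `S ⊆ D ⊆ UR J R` one has
  `S ∩ R j = S ∩ (D ∩ R j)`, and `D = UR J (fun j => D ∩ R j)`.
-/

namespace Pool.Agent.H95.FL

open Finset

theorem sum_union (A B : Finset ℕ) (h : Disjoint A B) (f : Finset ℕ → ℝ) :
    ∑ S ∈ (A ∪ B).powerset, f S = ∑ S ∈ A.powerset, ∑ T ∈ B.powerset, f (S ∪ T) := by
  rw [← Finset.sum_product' (f := fun S T => f (S ∪ T))]
  symm
  refine Finset.sum_nbij' (fun x => x.1 ∪ x.2) (fun U => (U ∩ A, U ∩ B)) ?_ ?_ ?_ ?_ ?_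
  · intro x hx
    rw [mem_product, mem_powerset, mem_powerset] at hx
    rw [mem_powerset]
    exact union_subset_union hx.1 hx.2
  · intro U _
    rw [mem_product, mem_powerset, mem_powerset]
    exact ⟨inter_subset_right, inter_subset_right⟩
  · rintro ⟨S, T⟩ hx
    rw [mem_product, mem_powerset, mem_powerset] at hx
    obtain ⟨hS, hT⟩ := hx
    have h1 : S ∩ B = ∅ := disjoint_iff_inter_eq_empty.1 (h.mono_left hS)
    have h2 : T ∩ A = ∅ := disjoint_iff_inter_eq_empty.1 (h.symm.mono_left hT)
    refine Prod.ext ?_ ?_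
    · change (S ∪ T) ∩ A = S
      rw [union_inter_distrib_right, inter_eq_left.2 hS, h2, union_empty]
    · change (S ∪ T) ∩ B = T
      rw [union_inter_distrib_right, inter_eq_left.2 hT, h1, empty_union]
  · intro U hU
    rw [mem_powerset] at hU
    change U ∩ A ∪ U ∩ B = U
    rw [← inter_union_distrib_left, inter_eq_left.2 hU]
  · intro x _
    rfl

theorem sum_blocks (J : ℕ) (R : ℕ → Finset ℕ) (hR : Dj J R) (F : ℕ → Finset ℕ → ℝ) (g : ℕ → ℝ) :
    mean g (UR J R) (fP J R F) = ∏ j ∈ range J, mean g (R j) (F j) := by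
  induction J with
  | zero => simp [mean, UR, fP]
  | succ J ih =>
    have hR' : Dj J R := fun i hi j hj hij => hR i (by omega) j (by omega) hij
    rw [prod_range_succ, ← ih hR']
    have hU : UR (J + 1) R = UR J R ∪ R J := by
      unfold UR
      rw [range_add_one, biUnion_insert, union_comm]
    have hdis : Disjoint (UR J R) (R J) := by
      unfold UR
      rw [disjoint_biUnion_left]
      intro i hi
      rw [mem_range] at hi
      exact hR i (by omega) J (by omega) (by omega)
    unfold mean
    rw [hU, sum_union _ _ hdis, Finset.sum_mul_sum]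
    refine Finset.sum_congr rfl fun S hS => Finset.sum_congr rfl fun T hT => ?_
    rw [mem_powerset] at hS hT
    have hST : Disjoint S T := (hdis.mono_left hS).mono_right hT
    rw [prod_union hST]
    have h1 : fP (J + 1) R F (S ∪ T) = fP J R F S * F J T := by
      unfold fP
      rw [prod_range_succ]
      congr 1
      · refine Finset.prod_congr rfl fun j hj => ?_
        rw [mem_range] at hj
        have h2 : Disjoint T (R j) :=
          (hR J (by omega) j (by omega) (by omega)).mono_left hT
        rw [union_inter_distrib_right, disjoint_iff_inter_eq_empty.1 h2, union_empty]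
      · rw [union_inter_distrib_right, inter_eq_left.2 hT,
          disjoint_iff_inter_eq_empty.1 (hdis.mono_left hS), empty_union]
    rw [h1]
    ring

theorem val_blocks (J : ℕ) (R : ℕ → Finset ℕ) (hR : Dj J R) (F : ℕ → Finset ℕ → ℝ) (D : Finset ℕ)
    (hD : D ⊆ UR J R) : val (fP J R F) D = ∏ j ∈ range J, val (F j) (D ∩ R j) := by
  have hR' : Dj J (fun j => D ∩ R j) := fun i hi j hj hij =>
    (hR i hi j hj hij).mono inter_subset_right inter_subset_right
  have h1 := sum_blocks J (fun j => D ∩ R j) hR' F (fun _ => 1)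
  have hU : UR J (fun j => D ∩ R j) = D := by
    unfold UR at hD ⊢
    rw [← inter_biUnion, inter_eq_left.2 hD]
  rw [hU] at h1
  unfold mean at h1
  simp only [prod_const_one, mul_one] at h1
  unfold val
  rw [← h1]
  refine Finset.sum_congr rfl fun S hS => ?_
  rw [mem_powerset] at hS
  unfold fP
  refine Finset.prod_congr rfl fun j _ => ?_
  rw [← inter_assoc, inter_eq_left.2 hS]

end Pool.Agent.H95.FL
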