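import Pool.Agent.H95.FL.Cn
import Pool.Agent.H95.FL.Ex

/-!
[H95 FL SM]  Sums of the sandwich functions, and the weighted number of rough `N` in a class (C2, C3 of the text).

Let `K = card I`, `g p = K/p`.
* `sum_val`: `val f (DP h P N) = ∑_{S ∈ P.powerset} f S * [S ⊆ DP h P N]` (for `S ⊆ P`: `S ⊆ DP h P N ↔ ∀ p ∈ S, ∃ i, p ∣ N + h i`);
  exchange the sums and apply `cnt` to each `S`; `K^#S / ∏ S = ∏_{p ∈ S} g p`.
* `rough_cnt`: `R(N) = [DP h P N = ∅]` satisfies `val fl (DP) ≤ R ≤ val fu (DP)` (for `D = ∅`: `val f ∅ = f ∅ = 1`), so the count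
  lies between `X/(W q) (1-d) V - Y E` and `X/(W q) (1+d) V + Y E`.
* `poly`: `f(N) = ∑_k c k * [N % q k = r k % q k]`: linearity, `rough_cnt` for each `k`.
-/

namespace Pool.Agent.H95.FL

open Finset

theorem mem_DP {I : Type} (h : I → ℕ) (P : Finset ℕ) (N p : ℕ) :
    p ∈ DP h P N ↔ p ∈ P ∧ ∃ i, p ∣ N + h i := by
  classical
  simp only [DP, mem_filter]

theorem DP_subset {I : Type} (h : I → ℕ) (P : Finset ℕ) (N : ℕ) : DP h P N ⊆ P :=
  fun p hp => ((mem_DP h P N p).1 hp).1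

open Classical in
theorem sum_val {T : Finset ℕ} {ω : ℕ → ℝ} {X E : ℝ} (hT : UD T ω X E)
    {I : Type} [Fintype I] [DecidableEq I] (h : I → ℕ) (W b q r : ℕ) (P : Finset ℕ)
    (hW : 0 < W) (hq : 0 < q) (h1 : Nat.Coprime W q)
    (hP : ∀ p ∈ P, p.Prime ∧ ¬ p ∣ W ∧ ¬ p ∣ q)
    (hd : ∀ p ∈ P, ∀ i j, i ≠ j → ¬ (p : ℤ) ∣ (h i : ℤ) - h j)
    (f : Finset ℕ → ℝ) :
    |∑ N ∈ T.filter (fun N => N % W = b % W ∧ N % q = r % q), ω N * val f (DP h P N) -
      X / (W * q) * mean (fun p => (Fintype.card I : ℝ) / p) P f| ≤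
      (∑ S ∈ P.powerset, |f S| * (Fintype.card I : ℝ) ^ S.card) * E := by
  have hval : ∀ N : ℕ, val f (DP h P N) =
      ∑ S ∈ P.powerset, if (∀ p ∈ S, ∃ i, p ∣ N + h i) then f S else 0 := by
    intro N
    unfold val
    rw [← sum_filter]
    apply sum_congr _ fun _ _ => rfl
    ext S
    simp only [mem_powerset, mem_filter]
    constructor
    · intro hS
      exact ⟨hS.trans (DP_subset h P N), fun p hp => ((mem_DP h P N p).1 (hS hp)).2⟩
    · rintro ⟨hS, hS2⟩ p hp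
      exact (mem_DP h P N p).2 ⟨hS hp, hS2 p hp⟩
  have hsum : ∑ N ∈ T.filter (fun N => N % W = b % W ∧ N % q = r % q), ω N * val f (DP h P N) =
      ∑ S ∈ P.powerset, f S *
        ∑ N ∈ T.filter (fun N => N % W = b % W ∧ N % q = r % q ∧ ∀ p ∈ S, ∃ i, p ∣ N + h i), ω N := by
    simp_rw [hval, mul_sum]
    rw [sum_comm]
    apply sum_congr rfl
    intro S _
    have h2 : T.filter (fun N => N % W = b % W ∧ N % q = r % q ∧ ∀ p ∈ S, ∃ i, p ∣ N + h i) =
        (T.filter (fun N => N % W = b % W ∧ N % q = r % q)).filter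
          (fun N => ∀ p ∈ S, ∃ i, p ∣ N + h i) := by
      rw [filter_filter]
      apply filter_congr
      intro N _
      simp only [and_assoc]
    rw [h2, sum_filter (fun N => ∀ p ∈ S, ∃ i, p ∣ N + h i)]
    apply sum_congr rfl
    intro N _
    split_ifs
    · ring
    · simp
  have hmean : X / (W * q) * mean (fun p => (Fintype.card I : ℝ) / p) P f =
      ∑ S ∈ P.powerset, f S *
        ((Fintype.card I : ℝ) ^ S.card * (X / (W * q * ∏ p ∈ S, (p : ℝ)))) := by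
    unfold mean
    rw [mul_sum]
    apply sum_congr rfl
    intro S _
    rw [prod_div_distrib, prod_const]
    ring
  rw [hsum, hmean, ← sum_sub_distrib, sum_mul]
  refine (abs_sum_le_sum_abs _ _).trans (sum_le_sum ?_)
  intro S hS
  rw [mem_powerset] at hS
  rw [← mul_sub, abs_mul, mul_assoc |f S|]
  apply mul_le_mul_of_nonneg_left _ (abs_nonneg _)
  exact cnt hT h W b q r S hW hq h1 (fun p hp => hP p (hS hp)) (fun p hp => hd p (hS hp))

open Classical in
theorem rough_cnt {T : Finset ℕ} {ω : ℕ → ℝ} {X E : ℝ} (hT : UD T ω X E) (hω : ∀ N ∈ T, 0 ≤ ω N)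
    (hX : 0 ≤ X)
    {I : Type} [Fintype I] [DecidableEq I] (h : I → ℕ) (W b q r : ℕ)
    (P : Finset ℕ) (hW : 0 < W) (hq : 0 < q) (h1 : Nat.Coprime W q)
    (hP : ∀ p ∈ P, p.Prime ∧ ¬ p ∣ W ∧ ¬ p ∣ q)
    (hd : ∀ p ∈ P, ∀ i j, i ≠ j → ¬ (p : ℤ) ∣ (h i : ℤ) - h j)
    (Y d : ℝ) (fl fu : Finset ℕ → ℝ)
    (hs : Sand (Fintype.card I) (fun p => (Fintype.card I : ℝ) / p) P Y d fl fu) :
    |∑ N ∈ T.filter (fun N => N % W = b % W ∧ N % q = r % q ∧ DP h P N = ∅), ω N -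
      X / (W * q) * vv (fun p => (Fintype.card I : ℝ) / p) P| ≤
      d * (X / (W * q) * vv (fun p => (Fintype.card I : ℝ) / p) P) + Y * E := by
  have hE := hT.nonneg
  have hDP : ∀ N, DP h P N ⊆ P := DP_subset h P
  set T' := T.filter (fun N => N % W = b % W ∧ N % q = r % q) with hT'
  have hset : T.filter (fun N => N % W = b % W ∧ N % q = r % q ∧ DP h P N = ∅) =
      T'.filter (fun N => DP h P N = ∅) := by
    rw [hT', filter_filter]
    apply filter_congr
    intro N _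
    simp only [and_assoc]
  have hval0 : ∀ f : Finset ℕ → ℝ, f ∅ = 1 → val f ∅ = 1 := by
    intro f hf
    simp [val, hf]
  have hT'nn : ∀ N ∈ T', 0 ≤ ω N := fun N hN => hω N (mem_filter.1 hN).1
  have hup : ∑ N ∈ T'.filter (fun N => DP h P N = ∅), ω N ≤ ∑ N ∈ T', ω N * val fu (DP h P N) := by
    rw [sum_filter]
    apply sum_le_sum
    intro N hN
    split_ifs with h2
    · rw [h2, hval0 fu hs.empty_u, mul_one]
    · exact mul_nonneg (hT'nn N hN) (hs.val_u _ (hDP N))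
  have hlo : ∑ N ∈ T', ω N * val fl (DP h P N) ≤ ∑ N ∈ T'.filter (fun N => DP h P N = ∅), ω N := by
    rw [sum_filter (fun N => DP h P N = ∅)]
    apply sum_le_sum
    intro N hN
    split_ifs with h2
    · rw [h2, hval0 fl hs.empty_l, mul_one]
    · have h3 := hs.val_l _ (hDP N) (nonempty_iff_ne_empty.2 h2)
      have h4 := hT'nn N hN
      nlinarith
  have hu := sum_val hT h W b q r P hW hq h1 hP hd fu
  have hl := sum_val hT h W b q r P hW hq h1 hP hd fl
  rw [← hT'] at hu hl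
  set g : ℕ → ℝ := fun p => (Fintype.card I : ℝ) / p with hg
  have hTq : 0 ≤ X / ((W : ℝ) * q) := by positivity
  have hmu : (∑ S ∈ P.powerset, |fu S| * (Fintype.card I : ℝ) ^ S.card) * E ≤ Y * E :=
    mul_le_mul_of_nonneg_right hs.mass_u hE
  have hml : (∑ S ∈ P.powerset, |fl S| * (Fintype.card I : ℝ) ^ S.card) * E ≤ Y * E :=
    mul_le_mul_of_nonneg_right hs.mass_l hE
  have hu2 := (abs_le.1 hu).2
  have hl2 := (abs_le.1 hl).1
  have hmeanu := mul_le_mul_of_nonneg_left hs.mean_u hTq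
  have hmeanl := mul_le_mul_of_nonneg_left hs.mean_l hTq
  rw [hset, abs_le]
  constructor
  · nlinarith
  · nlinarith

open Classical in
theorem poly {T : Finset ℕ} {ω : ℕ → ℝ} {X E : ℝ} (hT : UD T ω X E) (hω : ∀ N ∈ T, 0 ≤ ω N)
    (hX : 0 ≤ X)
    {I : Type} [Fintype I] [DecidableEq I] (h : I → ℕ) (W b : ℕ)
    (P : Finset ℕ) (hW : 0 < W) (hP : ∀ p ∈ P, p.Prime ∧ ¬ p ∣ W)
    (hd : ∀ p ∈ P, ∀ i j, i ≠ j → ¬ (p : ℤ) ∣ (h i : ℤ) - h j)
    (Y d : ℝ) (fl fu : Finset ℕ → ℝ)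
    (hs : Sand (Fintype.card I) (fun p => (Fintype.card I : ℝ) / p) P Y d fl fu)
    {κ : Type} (A : Finset κ) (q r : κ → ℕ) (c : κ → ℝ) (hq : ∀ k ∈ A, 0 < q k)
    (h1 : ∀ k ∈ A, Nat.Coprime W (q k)) (h2 : ∀ k ∈ A, ∀ p ∈ P, ¬ p ∣ q k) :
    |∑ N ∈ T.filter (fun N => N % W = b % W ∧ DP h P N = ∅),
        ω N * (∑ k ∈ A, if N % q k = r k % q k then c k else 0) -
      X / W * vv (fun p => (Fintype.card I : ℝ) / p) P * ∑ k ∈ A, c k / q k| ≤
      d * (X / W * vv (fun p => (Fintype.card I : ℝ) / p) P) * (∑ k ∈ A, |c k| / q k) +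
        Y * E * ∑ k ∈ A, |c k| := by
  set V : ℝ := vv (fun p => (Fintype.card I : ℝ) / p) P with hV
  have hsum : ∑ N ∈ T.filter (fun N => N % W = b % W ∧ DP h P N = ∅),
        ω N * (∑ k ∈ A, if N % q k = r k % q k then c k else 0) =
      ∑ k ∈ A, c k * ∑ N ∈ T.filter (fun N => N % W = b % W ∧ N % q k = r k % q k ∧ DP h P N = ∅),
        ω N := by
    simp_rw [mul_sum]
    rw [sum_comm]
    apply sum_congr rfl
    intro k _
    have h3 : T.filter (fun N => N % W = b % W ∧ N % q k = r k % q k ∧ DP h P N = ∅) =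
        (T.filter (fun N => N % W = b % W ∧ DP h P N = ∅)).filter
          (fun N => N % q k = r k % q k) := by
      rw [filter_filter]
      apply filter_congr
      intro N _
      tauto
    rw [h3, sum_filter (fun N => N % q k = r k % q k)]
    apply sum_congr rfl
    intro N _
    split_ifs
    · ring
    · simp
  have hR : X / W * V * ∑ k ∈ A, c k / q k = ∑ k ∈ A, c k * (X / (W * q k) * V) := by
    rw [mul_sum]
    apply sum_congr rfl
    intro k _
    ring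
  have hR2 : d * (X / W * V) * (∑ k ∈ A, |c k| / q k) + Y * E * ∑ k ∈ A, |c k| =
      ∑ k ∈ A, |c k| * (d * (X / (W * q k) * V) + Y * E) := by
    rw [mul_sum, mul_sum, ← sum_add_distrib]
    apply sum_congr rfl
    intro k _
    ring
  rw [hsum, hR, hR2, ← sum_sub_distrib]
  refine (abs_sum_le_sum_abs _ _).trans (sum_le_sum ?_)
  intro k hk
  rw [← mul_sub, abs_mul]
  apply mul_le_mul_of_nonneg_left _ (abs_nonneg _)
  exact rough_cnt hT hω hX h W b (q k) (r k) P hW (hq k hk) (h1 k hk)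
    (fun p hp => ⟨(hP p hp).1, (hP p hp).2, h2 k hk p hp⟩) hd Y d fl fu hs

end Pool.Agent.H95.FL
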